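import Mathlib

/-!
The counterexample language for the question whether every context-free EDT0L language has
finite index.  Words over `{a, b, c, d}`.
-/

set_option autoImplicit false

namespace Pool.Agent.Lib.MP835627

/-- The alphabet. -/
inductive Al
  | a | b | c | d
  deriving DecidableEq, Fintype

open Al

/-- Letters of synchronised trees: `true` is a branching level, `false` a unary level. -/
def lt : Bool → Al
  | true => a
  | false => b

/-- The synchronised tree word. -/
def tau : List Bool → List Al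
  | [] => [c]
  | true :: x => a :: (tau x ++ d :: (tau x ++ [a]))
  | false :: x => b :: (tau x ++ [b])

/-- a word over `{a,b}`. -/
def AB (u : List Al) : Prop := ∀ x ∈ u, x = a ∨ x = b

/-- words with a mismatch around some `d`. -/
def InD (w : List Al) : Prop :=
  ∃ (α u v β : List Al) (s t : Al), w = α ++ s :: (u ++ d :: (v ++ t :: β)) ∧
    u.length = v.length ∧ AB u ∧ AB v ∧ s ≠ t

/-- all tree words. -/
inductive KK : List Al → Prop
  | leaf : KK [c]
  | un {u : List Al} : KK u → KK (b :: (u ++ [b]))
  | br {u v : List Al} : KK u → KK v → KK (a :: (u ++ d :: (v ++ [a])))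

lemma AB_nil : AB [] := by intro x hx; simp at hx

lemma AB_cons {x : Al} {u : List Al} (hx : x = a ∨ x = b) (hu : AB u) : AB (x :: u) := by
  intro y hy
  rcases List.mem_cons.1 hy with h | h
  · subst h; exact hx
  · exact hu y h

lemma AB_append {u v : List Al} (hu : AB u) (hv : AB v) : AB (u ++ v) := by
  intro y hy
  rcases List.mem_append.1 hy with h | h
  · exact hu y h
  · exact hv y h

lemma AB_reverse {u : List Al} (hu : AB u) : AB u.reverse := by
  intro y hy
  exact hu y (List.mem_reverse.1 hy)

lemma lt_ab (x : Bool) : lt x = a ∨ lt x = b := by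
  cases x <;> simp [lt]

lemma AB_map_lt (x : List Bool) : AB (x.map lt) := by
  intro y hy
  obtain ⟨z, _, rfl⟩ := List.mem_map.1 hy
  exact lt_ab z

lemma lt_injective : Function.Injective lt := by
  intro x y h
  cases x <;> cases y <;> simp_all [lt]

lemma InD.context {w : List Al} (h : InD w) (p q : List Al) : InD (p ++ (w ++ q)) := by
  obtain ⟨α, u, v, β, s, t, rfl, hl, hu, hv, hst⟩ := h
  exact ⟨p ++ α, u, v, β ++ q, s, t, by simp [List.append_assoc], hl, hu, hv, hst⟩

/-- prefix of a tree word -/
lemma tau_prefix (x : List Bool) : ∃ r, tau x = x.map lt ++ c :: r := by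
  induction x with
  | nil => exact ⟨[], rfl⟩
  | cons y x ih =>
    obtain ⟨r, hr⟩ := ih
    cases y with
    | true => exact ⟨r ++ d :: (tau x ++ [a]), by simp [tau, lt, hr]⟩
    | false => exact ⟨r ++ [b], by simp [tau, lt, hr]⟩

lemma tau_suffix (x : List Bool) : ∃ r, tau x = r ++ c :: (x.map lt).reverse := by
  induction x with
  | nil => exact ⟨[], rfl⟩
  | cons y x ih =>
    obtain ⟨r, hr⟩ := ih
    cases y with
    | true => exact ⟨a :: (tau x ++ d :: r), by simp [tau, lt, hr]⟩
    | false => exact ⟨b :: r, by simp [tau, lt, hr]⟩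

/-- two distinct words over `{a,b}` both followed by `c` have a first mismatch. -/
lemma first_mismatch (x y : List Al) (hx : AB x) (hy : AB y) (hne : x ≠ y) :
    ∃ (u : List Al) (s t : Al) (x' y' : List Al), AB u ∧ s ≠ t ∧
      x ++ [c] = u ++ s :: x' ∧ y ++ [c] = u ++ t :: y' := by
  induction x generalizing y with
  | nil =>
    cases y with
    | nil => exact absurd rfl hne
    | cons z y =>
      refine ⟨[], c, z, [], y ++ [c], AB_nil, ?_, rfl, rfl⟩
      rcases hy z (by simp) with h | h <;> simp [h]
  | cons w x ih =>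
    cases y with
    | nil =>
      refine ⟨[], w, c, x ++ [c], [], AB_nil, ?_, rfl, rfl⟩
      rcases hx w (by simp) with h | h <;> simp [h]
    | cons z y =>
      by_cases hwz : w = z
      · subst hwz
        have hne' : x ≠ y := fun h => hne (by rw [h])
        obtain ⟨u, s, t, x', y', hu, hst, h1, h2⟩ :=
          ih y (fun q hq => hx q (by simp [hq])) (fun q hq => hy q (by simp [hq])) hne'
        refine ⟨w :: u, s, t, x', y', AB_cons (hx w (by simp)) hu, hst, ?_, ?_⟩
        · simp [h1]
        · simp [h2]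
      · exact ⟨[], w, z, x ++ [c], y ++ [c], AB_nil, hwz, rfl, rfl⟩

lemma KK_cases {w : List Al} (h : KK w) : InD w ∨ ∃ x, w = tau x := by
  induction h with
  | leaf => exact Or.inr ⟨[], rfl⟩
  | @un u _ ih =>
    rcases ih with h | ⟨x, rfl⟩
    · left; exact h.context [b] [b]
    · exact Or.inr ⟨false :: x, rfl⟩
  | @br u v _ _ ih1 ih2 =>
    rcases ih1 with h | ⟨x, rfl⟩
    · left
      exact h.context [a] (d :: (v ++ [a]))
    rcases ih2 with h | ⟨y, rfl⟩
    · left
      have := h.context (a :: (tau x ++ [d])) [a]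
      simpa [List.append_assoc] using this
    by_cases hxy : x = y
    · subst hxy
      exact Or.inr ⟨true :: x, rfl⟩
    · left
      obtain ⟨r, hr⟩ := tau_suffix x
      obtain ⟨r', hr'⟩ := tau_prefix y
      obtain ⟨u, s, t, x', y', hu, hst, h1, h2⟩ :=
        first_mismatch (x.map lt) (y.map lt) (AB_map_lt x) (AB_map_lt y)
          (fun h => hxy (List.map_injective_iff.2 lt_injective h))
      refine ⟨a :: (r ++ x'.reverse), u.reverse, u, y' ++ r' ++ [a], s, t, ?_, by simp,
        AB_reverse hu, hu, hst⟩
      have e1 : tau x = r ++ (x'.reverse ++ s :: u.reverse) := by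
        rw [hr]
        have := congrArg List.reverse h1
        simp only [List.reverse_append, List.reverse_cons, List.reverse_nil, List.nil_append,
          List.singleton_append] at this
        rw [this]
        simp
      have e2 : tau y = u ++ t :: (y' ++ r') := by
        rw [hr']
        have : (y.map lt ++ [c]) ++ r' = (u ++ t :: y') ++ r' := by rw [h2]
        simpa [List.append_assoc] using this
      rw [e1, e2]
      simp [List.append_assoc]

/-- the counterexample language -/
def Lg : Language Al := {w | InD w ∨ ∃ x, w = tau x}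

lemma mem_Lg {w : List Al} : w ∈ Lg ↔ (InD w ∨ ∃ x, w = tau x) := Iff.rfl

/-! ### The grammar -/

inductive Nt
  | S | E | F | M | X
  deriving DecidableEq, Fintype

abbrev Sy := Symbol Al Nt
abbrev te : Al → Sy := Symbol.terminal
abbrev nt : Nt → Sy := Symbol.nonterminal

def allAl : List Al := [a, b, c, d]

lemma mem_allAl (x : Al) : x ∈ allAl := by cases x <;> simp [allAl]

def abs2 : List Al := [a, b]

def ruleList : List (ContextFreeRule Al Nt) :=
  [⟨Nt.S, [nt Nt.X]⟩, ⟨Nt.E, []⟩, ⟨Nt.F, []⟩, ⟨Nt.M, [te d]⟩, ⟨Nt.X, [te c]⟩,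
    ⟨Nt.X, [te b, nt Nt.X, te b]⟩, ⟨Nt.X, [te a, nt Nt.X, te d, nt Nt.X, te a]⟩] ++
  (allAl.map fun s => ⟨Nt.E, [te s, nt Nt.E]⟩) ++
  (allAl.map fun s => ⟨Nt.F, [te s, nt Nt.F]⟩) ++
  (abs2.flatMap fun s => abs2.map fun t => ⟨Nt.M, [te s, nt Nt.M, te t]⟩) ++
  (allAl.flatMap fun s => (allAl.filter fun t => s ≠ t).map fun t =>
    ⟨Nt.S, [nt Nt.E, te s, nt Nt.M, te t, nt Nt.F]⟩)

/-- case analysis on rules -/
lemma mem_ruleList {r : ContextFreeRule Al Nt} : r ∈ ruleList ↔
    r = ⟨Nt.S, [nt Nt.X]⟩ ∨ r = ⟨Nt.E, []⟩ ∨ r = ⟨Nt.F, []⟩ ∨ r = ⟨Nt.M, [te d]⟩ ∨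
    r = ⟨Nt.X, [te c]⟩ ∨ r = ⟨Nt.X, [te b, nt Nt.X, te b]⟩ ∨
    r = ⟨Nt.X, [te a, nt Nt.X, te d, nt Nt.X, te a]⟩ ∨
    (∃ s, r = ⟨Nt.E, [te s, nt Nt.E]⟩) ∨
    (∃ s, r = ⟨Nt.F, [te s, nt Nt.F]⟩) ∨
    (∃ s t, (s = a ∨ s = b) ∧ (t = a ∨ t = b) ∧ r = ⟨Nt.M, [te s, nt Nt.M, te t]⟩) ∨
    (∃ s t, s ≠ t ∧ r = ⟨Nt.S, [nt Nt.E, te s, nt Nt.M, te t, nt Nt.F]⟩) := by
  simp only [ruleList, List.mem_append, List.mem_cons, List.mem_map, List.mem_flatMap,
    List.not_mem_nil, or_false, List.mem_filter, decide_eq_true_eq, ne_eq, decide_not,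
    Bool.not_eq_eq_eq_not, Bool.not_true, decide_eq_false_iff_not]
  constructor
  · rintro ((((h | h) | h) | h) | h)
    · rcases h with h | h | h | h | h | h | h <;> simp [h]
    · obtain ⟨s, _, rfl⟩ := h
      right; right; right; right; right; right; right; left
      exact ⟨s, rfl⟩
    · obtain ⟨s, _, rfl⟩ := h
      right; right; right; right; right; right; right; right; left
      exact ⟨s, rfl⟩
    · obtain ⟨s, hs, t, ht, rfl⟩ := h
      right; right; right; right; right; right; right; right; right; left
      refine ⟨s, t, by simpa [abs2] using hs, by simpa [abs2] using ht, rfl⟩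
    · obtain ⟨s, _, t, ⟨_, hst⟩, rfl⟩ := h
      right; right; right; right; right; right; right; right; right; right
      exact ⟨s, t, hst, rfl⟩
  · rintro (h | h | h | h | h | h | h | ⟨s, rfl⟩ | ⟨s, rfl⟩ | ⟨s, t, hs, ht, rfl⟩ |
      ⟨s, t, hst, rfl⟩)
    · simp [h]
    · simp [h]
    · simp [h]
    · simp [h]
    · simp [h]
    · simp [h]
    · simp [h]
    · left; left; left; right
      exact ⟨s, mem_allAl s, rfl⟩
    · left; left; right
      exact ⟨s, mem_allAl s, rfl⟩
    · left; right
      exact ⟨s, by simpa [abs2] using hs, t, by simpa [abs2] using ht, rfl⟩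
    · right
      exact ⟨s, mem_allAl s, t, ⟨mem_allAl t, hst⟩, rfl⟩

/-- The context-free grammar. -/
abbrev G0 : ContextFreeGrammar Al where
  NT := Nt
  initial := Nt.S
  rules := ruleList.toFinset

/-- table of a rule -/
def tab (r : ContextFreeRule Al Nt) : Sy → List Sy
  | Symbol.terminal t => [Symbol.terminal t]
  | Symbol.nonterminal A => if A = r.input then r.output else [Symbol.nonterminal A]

def tables : List (Sy → List Sy) := ruleList.map tab

def Reach (u v : List Sy) : Prop :=
  ∃ sq : List (Sy → List Sy), (∀ h ∈ sq, h ∈ tables) ∧ sq.foldl (fun u h => u.flatMap h) u = v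

lemma Reach.refl (u : List Sy) : Reach u u := ⟨[], by simp, rfl⟩

lemma Reach.trans {u v w : List Sy} (h1 : Reach u v) (h2 : Reach v w) : Reach u w := by
  obtain ⟨s1, a1, b1⟩ := h1
  obtain ⟨s2, a2, b2⟩ := h2
  refine ⟨s1 ++ s2, ?_, ?_⟩
  · intro h hh
    rcases List.mem_append.1 hh with h' | h'
    · exact a1 h h'
    · exact a2 h h'
  · rw [List.foldl_append, b1, b2]

lemma Reach.step {r : ContextFreeRule Al Nt} (hr : r ∈ ruleList) (u : List Sy) :
    Reach u (u.flatMap (tab r)) :=
  ⟨[tab r], by intro h hh; rw [List.mem_singleton.1 hh]; exact List.mem_map_of_mem hr, rfl⟩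

lemma Reach.step' {r : ContextFreeRule Al Nt} (hr : r ∈ ruleList) {u v : List Sy}
    (h : u.flatMap (tab r) = v) : Reach u v := h ▸ Reach.step hr u

/-! ### EDT0L is contained in CF -/

lemma derives_flatMap {r : ContextFreeRule Al Nt} (hr : r ∈ ruleList) (u : List Sy) :
    G0.Derives u (u.flatMap (tab r)) := by
  induction u with
  | nil => exact ContextFreeGrammar.Derives.refl _
  | cons x u ih =>
    rw [List.flatMap_cons]
    have h1 : G0.Derives [x] (tab r x) := by
      cases x with
      | terminal t => exact ContextFreeGrammar.Derives.refl _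
      | nonterminal A =>
        by_cases hA : A = r.input
        · simp only [tab, hA, if_true]
          refine ContextFreeGrammar.Produces.single ⟨r, ?_, ?_⟩
          · exact List.mem_toFinset.2 hr
          · exact ContextFreeRule.Rewrites.input_output
        · simp only [tab, hA, if_false]
          exact ContextFreeGrammar.Derives.refl _
    have h2 : G0.Derives ([x] ++ u) (tab r x ++ u) := h1.append_right u
    have h3 : G0.Derives (tab r x ++ u) (tab r x ++ u.flatMap (tab r)) := ih.append_left _
    exact h2.trans h3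

lemma derives_of_reach {u v : List Sy} (h : Reach u v) : G0.Derives u v := by
  obtain ⟨sq, h1, rfl⟩ := h
  induction sq generalizing u with
  | nil => exact ContextFreeGrammar.Derives.refl _
  | cons g sq ih =>
    rw [List.foldl_cons]
    obtain ⟨r, hr, rfl⟩ := List.mem_map.1 (h1 g (by simp))
    exact (derives_flatMap hr u).trans (ih (fun h hh => h1 h (by simp [hh])))

/-! ### CF is contained in D ∪ K -/

def langN : Nt → List Al → Prop
  | Nt.S, w => InD w ∨ KK w
  | Nt.E, _ => True
  | Nt.F, _ => True
  | Nt.M, w => ∃ u v, w = u ++ d :: v ∧ u.length = v.length ∧ AB u ∧ AB v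
  | Nt.X, w => KK w

def semL : List Sy → List Al → Prop
  | [], w => w = []
  | Symbol.terminal t :: l, w => ∃ v, w = t :: v ∧ semL l v
  | Symbol.nonterminal A :: l, w => ∃ u v, w = u ++ v ∧ langN A u ∧ semL l v

lemma semL_append (l1 l2 : List Sy) (w : List Al) :
    semL (l1 ++ l2) w ↔ ∃ u v, w = u ++ v ∧ semL l1 u ∧ semL l2 v := by
  induction l1 generalizing w with
  | nil => simp [semL]
  | cons x l1 ih =>
    cases x with
    | terminal t =>
      simp only [List.cons_append, semL, ih]
      constructor
      · rintro ⟨v, rfl, u, v', rfl, h1, h2⟩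
        exact ⟨t :: u, v', rfl, ⟨u, rfl, h1⟩, h2⟩
      · rintro ⟨u, v, rfl, ⟨v', rfl, h1⟩, h2⟩
        exact ⟨v' ++ v, rfl, v', v, rfl, h1, h2⟩
    | nonterminal A =>
      simp only [List.cons_append, semL, ih]
      constructor
      · rintro ⟨u, v, rfl, h0, u', v', rfl, h1, h2⟩
        exact ⟨u ++ u', v', by simp, ⟨u, u', rfl, h0, h1⟩, h2⟩
      · rintro ⟨u, v, rfl, ⟨u', v', rfl, h0, h1⟩, h2⟩
        exact ⟨u', v' ++ v, by simp, h0, v', v, rfl, h1, h2⟩

lemma semL_rule {r : ContextFreeRule Al Nt} (hr : r ∈ ruleList) {w : List Al}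
    (h : semL r.output w) : langN r.input w := by
  rw [mem_ruleList] at hr
  rcases hr with rfl | rfl | rfl | rfl | rfl | rfl | rfl | ⟨s, rfl⟩ | ⟨s, rfl⟩ |
    ⟨s, t, hs, ht, rfl⟩ | ⟨s, t, hst, rfl⟩
  · simp only [nt, semL] at h
    obtain ⟨u, v, rfl, h1, rfl⟩ := h
    simp only [langN] at h1 ⊢
    simp [h1]
  · trivial
  · trivial
  · simp only [te, semL] at h
    obtain ⟨v, rfl, rfl⟩ := h
    exact ⟨[], [], rfl, rfl, AB_nil, AB_nil⟩
  · simp only [te, semL] at h
    obtain ⟨v, rfl, rfl⟩ := h
    exact KK.leaf
  · simp only [te, nt, semL] at h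
    obtain ⟨v, rfl, u, v', rfl, h1, v'', rfl, rfl⟩ := h
    exact KK.un h1
  · simp only [te, nt, semL] at h
    obtain ⟨v, rfl, u, v', rfl, h1, v'', rfl, u', v3, rfl, h2, v4, rfl, rfl⟩ := h
    exact KK.br h1 h2
  · trivial
  · trivial
  · simp only [te, nt, semL] at h
    obtain ⟨v, rfl, u, v', rfl, ⟨p, q, rfl, hl, hp, hq⟩, v'', rfl, rfl⟩ := h
    refine ⟨s :: p, q ++ [t], by simp, by simp [hl], AB_cons hs hp,
      AB_append hq (AB_cons ht AB_nil)⟩
  · simp only [te, nt, semL] at h
    obtain ⟨u1, v1, rfl, _, v2, rfl, u3, v3, rfl, ⟨p, q, rfl, hl, hp, hq⟩, v4, rfl, u5, v5,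
      rfl, _, rfl⟩ := h
    left
    exact ⟨u1, p, q, u5, s, t, by simp, hl, hp, hq, hst⟩

lemma semL_produces {u v : List Sy} (h : G0.Produces u v) {w : List Al} (hw : semL v w) :
    semL u w := by
  obtain ⟨r, hr, hrw⟩ := h
  obtain ⟨p, q, rfl, rfl⟩ := hrw.exists_parts
  have hr' : r ∈ ruleList := List.mem_toFinset.1 hr
  rw [semL_append] at hw
  obtain ⟨x, y, rfl, hx, hy⟩ := hw
  rw [semL_append] at hx
  obtain ⟨x1, x2, rfl, hx1, hx2⟩ := hx
  rw [semL_append]
  refine ⟨x1 ++ x2, y, rfl, ?_, hy⟩
  rw [semL_append]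
  refine ⟨x1, x2, rfl, hx1, ?_⟩
  simp only [semL]
  exact ⟨x2, [], by simp, semL_rule hr' hx2, rfl⟩

lemma semL_derives {u v : List Sy} (h : G0.Derives u v) {w : List Al} (hw : semL v w) :
    semL u w := by
  induction h using Relation.ReflTransGen.head_induction_on with
  | refl => exact hw
  | head h1 _ ih => exact semL_produces h1 ih

lemma semL_terminals (w : List Al) : semL (w.map Symbol.terminal) w := by
  induction w with
  | nil => rfl
  | cons x w ih => exact ⟨w, rfl, ih⟩

lemma lang_sub {w : List Al} (h : w ∈ G0.language) : InD w ∨ KK w := by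
  have h' := semL_derives h (semL_terminals w)
  change semL [Symbol.nonterminal Nt.S] w at h'
  simp only [semL] at h'
  obtain ⟨u, v, rfl, h1, rfl⟩ := h'
  simpa [langN] using h1

/-! ### D and tau are EDT0L -/

/-- fixed by tables of `A` -/
def NoN (A : Nt) (l : List Sy) : Prop := nt A ∉ l

lemma flatMap_fixed {r : ContextFreeRule Al Nt} {l : List Sy} (h : NoN r.input l) :
    l.flatMap (tab r) = l := by
  induction l with
  | nil => rfl
  | cons x l ih =>
    have h2 : NoN r.input l := fun h' => h (by simp [h'])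
    rw [List.flatMap_cons, ih h2]
    cases x with
    | terminal t => rfl
    | nonterminal A =>
      have : A ≠ r.input := by
        rintro rfl
        exact h (by simp [nt])
      simp [tab, this]

lemma NoN_map (A : Nt) (u : List Al) : NoN A (u.map te) := by
  intro h
  obtain ⟨x, _, hx⟩ := List.mem_map.1 h
  cases hx

lemma NoN_append {A : Nt} {u v : List Sy} (hu : NoN A u) (hv : NoN A v) : NoN A (u ++ v) := by
  intro h
  rcases List.mem_append.1 h with h | h
  · exact hu h
  · exact hv h

/-- apply a rule at a single occurrence of its input -/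
lemma reach_single {r : ContextFreeRule Al Nt} (hr : r ∈ ruleList) {p q : List Sy}
    (hp : NoN r.input p) (hq : NoN r.input q) :
    Reach (p ++ nt r.input :: q) (p ++ (r.output ++ q)) := by
  refine Reach.step' hr ?_
  rw [List.flatMap_append, List.flatMap_cons, flatMap_fixed hp, flatMap_fixed hq]
  simp [tab, nt]

lemma reach_E (α : List Al) (p q : List Sy) (hp : NoN Nt.E p) (hq : NoN Nt.E q) :
    Reach (p ++ nt Nt.E :: q) (p ++ (α.map te ++ q)) := by
  induction α generalizing p with
  | nil =>
    have hr : (⟨Nt.E, []⟩ : ContextFreeRule Al Nt) ∈ ruleList := by rw [mem_ruleList]; simp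
    simpa using reach_single hr hp hq
  | cons s α ih =>
    have hr : (⟨Nt.E, [te s, nt Nt.E]⟩ : ContextFreeRule Al Nt) ∈ ruleList := by
      rw [mem_ruleList]
      right; right; right; right; right; right; right; left
      exact ⟨s, rfl⟩
    have h1 := reach_single hr hp hq
    refine h1.trans ?_
    have h2 := ih (p ++ [te s]) (NoN_append hp (by simp [NoN, nt, te]))
    simpa [List.append_assoc] using h2

lemma reach_F (α : List Al) (p q : List Sy) (hp : NoN Nt.F p) (hq : NoN Nt.F q) :
    Reach (p ++ nt Nt.F :: q) (p ++ (α.map te ++ q)) := by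
  induction α generalizing p with
  | nil =>
    have hr : (⟨Nt.F, []⟩ : ContextFreeRule Al Nt) ∈ ruleList := by rw [mem_ruleList]; simp
    simpa using reach_single hr hp hq
  | cons s α ih =>
    have hr : (⟨Nt.F, [te s, nt Nt.F]⟩ : ContextFreeRule Al Nt) ∈ ruleList := by
      rw [mem_ruleList]
      right; right; right; right; right; right; right; right; left
      exact ⟨s, rfl⟩
    have h1 := reach_single hr hp hq
    refine h1.trans ?_
    have h2 := ih (p ++ [te s]) (NoN_append hp (by simp [NoN, nt, te]))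
    simpa [List.append_assoc] using h2

lemma reach_M (u v : List Al) (hl : u.length = v.length) (hu : AB u) (hv : AB v)
    (p q : List Sy) (hp : NoN Nt.M p) (hq : NoN Nt.M q) :
    Reach (p ++ nt Nt.M :: q) (p ++ (u.map te ++ te d :: (v.map te ++ q))) := by
  induction u generalizing v p q with
  | nil =>
    have : v = [] := List.length_eq_zero_iff.1 (by simpa using hl.symm)
    subst this
    have hr : (⟨Nt.M, [te d]⟩ : ContextFreeRule Al Nt) ∈ ruleList := by rw [mem_ruleList]; simp
    simpa using reach_single hr hp hq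
  | cons s u ih =>
    rcases List.eq_nil_or_concat v with rfl | ⟨v', t, rfl⟩
    · simp at hl
    · rw [List.concat_eq_append] at *
      have hs : s = a ∨ s = b := hu s (by simp)
      have ht : t = a ∨ t = b := hv t (by simp)
      have hr : (⟨Nt.M, [te s, nt Nt.M, te t]⟩ : ContextFreeRule Al Nt) ∈ ruleList := by
        rw [mem_ruleList]
        right; right; right; right; right; right; right; right; right; left
        exact ⟨s, t, hs, ht, rfl⟩
      have h1 := reach_single hr hp hq
      refine h1.trans ?_
      have h2 := ih v' (by simpa using hl) (fun x hx => hu x (by simp [hx]))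
        (fun x hx => hv x (by simp [hx])) (p ++ [te s]) (te t :: q)
        (NoN_append hp (by simp [NoN, nt, te])) (by
          intro h
          rcases List.mem_cons.1 h with h | h
          · cases h
          · exact hq h)
      simpa [List.append_assoc] using h2

lemma reach_InD {w : List Al} (h : InD w) : Reach [nt Nt.S] (w.map te) := by
  obtain ⟨α, u, v, β, s, t, rfl, hl, hu, hv, hst⟩ := h
  have hr : (⟨Nt.S, [nt Nt.E, te s, nt Nt.M, te t, nt Nt.F]⟩ : ContextFreeRule Al Nt)
      ∈ ruleList := by
    rw [mem_ruleList]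
    right; right; right; right; right; right; right; right; right; right
    exact ⟨s, t, hst, rfl⟩
  have h1 : Reach [nt Nt.S] [nt Nt.E, te s, nt Nt.M, te t, nt Nt.F] := by
    have := reach_single hr (p := []) (q := []) (by simp [NoN]) (by simp [NoN])
    simpa using this
  have h2 : Reach [nt Nt.E, te s, nt Nt.M, te t, nt Nt.F]
      (α.map te ++ [te s, nt Nt.M, te t, nt Nt.F]) := by
    have := reach_E α [] [te s, nt Nt.M, te t, nt Nt.F] (by simp [NoN])
      (by simp [NoN, nt, te])
    simpa using this
  have h3 : Reach (α.map te ++ [te s, nt Nt.M, te t, nt Nt.F])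
      (α.map te ++ [te s] ++ (u.map te ++ te d :: (v.map te ++ [te t, nt Nt.F]))) := by
    have := reach_M u v hl hu hv (α.map te ++ [te s]) [te t, nt Nt.F]
      (NoN_append (NoN_map _ _) (by simp [NoN, nt, te])) (by simp [NoN, nt, te])
    simpa [List.append_assoc] using this
  have h4 : Reach (α.map te ++ [te s] ++ (u.map te ++ te d :: (v.map te ++ [te t, nt Nt.F])))
      ((α ++ s :: (u ++ d :: (v ++ t :: β))).map te) := by
    have := reach_F β (α.map te ++ [te s] ++ (u.map te ++ te d :: (v.map te ++ [te t]))) []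
      (by
        refine NoN_append (NoN_append (NoN_map _ _) (by simp [NoN, nt, te])) ?_
        refine NoN_append (NoN_map _ _) ?_
        intro h
        rcases List.mem_cons.1 h with h | h
        · cases h
        · exact (NoN_append (NoN_map Nt.F v) (by simp [NoN, nt, te] :
            NoN Nt.F [te t])) h) (by simp [NoN])
    simpa [List.append_assoc] using this
  exact ((h1.trans h2).trans h3).trans h4

/-- tree template -/
def tx : List Bool → List Sy → List Sy
  | [], s => s
  | true :: x, s => te a :: (tx x s ++ te d :: (tx x s ++ [te a]))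
  | false :: x, s => te b :: (tx x s ++ [te b])

lemma tx_append (x y : List Bool) (s : List Sy) : tx (x ++ y) s = tx x (tx y s) := by
  induction x with
  | nil => rfl
  | cons z x ih => cases z <;> simp [tx, ih]

lemma tx_flatMap (r : ContextFreeRule Al Nt) (x : List Bool) (s : List Sy) :
    (tx x s).flatMap (tab r) = tx x (s.flatMap (tab r)) := by
  induction x with
  | nil => rfl
  | cons z x ih => cases z <;> simp [tx, ih, tab, te]

lemma tx_tau (x : List Bool) : tx x [te c] = (tau x).map te := by
  induction x with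
  | nil => rfl
  | cons z x ih => cases z <;> simp [tx, tau, ih]

lemma reach_tx (x : List Bool) : Reach [nt Nt.X] (tx x [nt Nt.X]) := by
  induction x using List.reverseRecOn with
  | nil => exact Reach.refl _
  | append_singleton x z ih =>
    refine ih.trans ?_
    cases z with
    | true =>
      have hr : (⟨Nt.X, [te a, nt Nt.X, te d, nt Nt.X, te a]⟩ : ContextFreeRule Al Nt)
          ∈ ruleList := by rw [mem_ruleList]; simp
      refine Reach.step' hr ?_
      rw [tx_flatMap, tx_append]
      simp [tab, nt, tx]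
    | false =>
      have hr : (⟨Nt.X, [te b, nt Nt.X, te b]⟩ : ContextFreeRule Al Nt)
          ∈ ruleList := by rw [mem_ruleList]; simp
      refine Reach.step' hr ?_
      rw [tx_flatMap, tx_append]
      simp [tab, nt, tx]

lemma reach_tau (x : List Bool) : Reach [nt Nt.S] ((tau x).map te) := by
  have hr : (⟨Nt.S, [nt Nt.X]⟩ : ContextFreeRule Al Nt) ∈ ruleList := by
    rw [mem_ruleList]; simp
  have h1 : Reach [nt Nt.S] [nt Nt.X] := by
    refine Reach.step' hr ?_
    simp [tab, nt]
  refine (h1.trans (reach_tx x)).trans ?_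
  have hr : (⟨Nt.X, [te c]⟩ : ContextFreeRule Al Nt) ∈ ruleList := by
    rw [mem_ruleList]; simp
  refine Reach.step' hr ?_
  rw [tx_flatMap, ← tx_tau]
  simp [tab, nt]

theorem reach_iff (w : List Al) : w ∈ Lg ↔ Reach [nt Nt.S] (w.map te) := by
  constructor
  · rintro (h | ⟨x, rfl⟩)
    · exact reach_InD h
    · exact reach_tau x
  · intro h
    have h1 : w ∈ G0.language := derives_of_reach h
    rcases lang_sub h1 with h | h
    · exact Or.inl h
    · exact KK_cases h

theorem cf_iff : G0.language = Lg := by
  ext w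
  constructor
  · intro h
    rcases lang_sub h with h | h
    · exact Or.inl h
    · exact KK_cases h
  · intro h
    exact derives_of_reach ((reach_iff w).1 h)

theorem edt0l : ∃ (V : Type) (_ : Fintype V) (ι : Al → V) (tables : List (V → List V))
    (ω : List V), Function.Injective ι ∧
          ∀ x : List Al, x ∈ Lg ↔
            ∃ sq : List (V → List V), (∀ h ∈ sq, h ∈ tables) ∧
              sq.foldl (fun u h => u.flatMap h) ω = x.map ι := by
  refine ⟨Sy, inferInstance, te, tables, [nt Nt.S], ?_, ?_⟩
  · intro x y h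
    exact Symbol.terminal.inj h
  · intro x
    exact reach_iff x

end Pool.Agent.Lib.MP835627
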