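import Mathlib

/-!
Forests, an embedding relation on labelled trees and the tree theorem for trees with finitely
many labels and bounded branching.
-/

set_option autoImplicit false

namespace Pool.Agent.Lib.MP835627

/-- Ordered forests with leaves in `T` and inner nodes labelled by `Q`. -/
inductive Fr (T Q : Type) : Type
  | nil : Fr T Q
  | term (t : T) (r : Fr T Q) : Fr T Q
  | node (q : Q) (ch r : Fr T Q) : Fr T Q

variable {T Q : Type}

namespace Fr

def size : Fr T Q → ℕ
  | nil => 0
  | term _ r => r.size + 1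
  | node _ ch r => ch.size + r.size + 1

/-- the tree with root label `q` and children `c` occurs in the forest. -/
def Sub (q : Q) (c : Fr T Q) : Fr T Q → Prop
  | nil => False
  | term _ r => Sub q c r
  | node q' c' r => (q = q' ∧ c = c') ∨ Sub q c c' ∨ Sub q c r

/-- embedding of forests: same roots, and each tree is obtained by inserting contexts at nodes,
a context being inserted at a node of the same label. -/
inductive Em : Fr T Q → Fr T Q → Prop
  | nil : Em nil nil
  | term (t : T) {r r' : Fr T Q} : Em r r' → Em (term t r) (term t r')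
  | node (q : Q) {ch c2 ch' r r' : Fr T Q} : Em ch c2 → Sub q c2 (node q ch' nil) → Em r r' →
      Em (node q ch r) (node q ch' r')

lemma Sub.self (q : Q) (c r : Fr T Q) : Sub q c (node q c r) := Or.inl ⟨rfl, rfl⟩

lemma Em.refl (f : Fr T Q) : Em f f := by
  induction f with
  | nil => exact Em.nil
  | term t r ih => exact Em.term t ih
  | node q ch r ih1 ih2 => exact Em.node q ih1 (Sub.self _ _ _) ih2

lemma Sub.trans {q1 q2 : Q} {c1 c2 f : Fr T Q} (h1 : Sub q1 c1 c2) (h2 : Sub q2 c2 f) :
    Sub q1 c1 f := by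
  induction f with
  | nil => exact h2
  | term t r ih => exact ih h2
  | node q ch r ih1 ih2 =>
    rcases h2 with ⟨_, rfl⟩ | h2 | h2
    · exact Or.inr (Or.inl h1)
    · exact Or.inr (Or.inl (ih1 h2))
    · exact Or.inr (Or.inr (ih2 h2))

/-- a subtree of a tree is either the tree or inside the children -/
lemma Sub.trans_tree {q1 q2 : Q} {c1 c2 f : Fr T Q} (h1 : Sub q1 c1 (node q2 c2 nil))
    (h2 : Sub q2 c2 f) : Sub q1 c1 f := by
  rcases h1 with ⟨rfl, rfl⟩ | h1 | h1
  · exact h2
  · exact h1.trans h2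
  · exact h1.elim

lemma Sub.size_lt {q : Q} {c f : Fr T Q} (h : Sub q c f) : c.size < f.size := by
  induction f with
  | nil => exact h.elim
  | term t r ih => exact (ih h).trans (Nat.lt_succ_self _)
  | node q' ch r ih1 ih2 =>
    rcases h with ⟨_, rfl⟩ | h | h
    · simp only [size]; omega
    · have := ih1 h; simp only [size]; omega
    · have := ih2 h; simp only [size]; omega

lemma Em.sub {f g : Fr T Q} (h : Em f g) {q : Q} {c : Fr T Q} (hc : Sub q c f) :
    ∃ c', Em c c' ∧ Sub q c' g := by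
  induction h generalizing q c with
  | nil => exact hc.elim
  | term t _ ih =>
    obtain ⟨c', h1, h2⟩ := ih hc
    exact ⟨c', h1, h2⟩
  | @node q0 ch c2 ch' r r' h1 h2 h3 ih1 ih3 =>
    rcases hc with ⟨rfl, rfl⟩ | hc | hc
    · refine ⟨c2, h1, ?_⟩
      rcases h2 with ⟨_, rfl⟩ | h2 | h2
      · exact Sub.self _ _ _
      · exact Or.inr (Or.inl h2)
      · exact h2.elim
    · obtain ⟨c', h4, h5⟩ := ih1 hc
      refine ⟨c', h4, ?_⟩
      rcases h2 with ⟨_, rfl⟩ | h2 | h2
      · exact Or.inr (Or.inl h5)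
      · exact Or.inr (Or.inl (h5.trans h2))
      · exact h2.elim
    · obtain ⟨c', h4, h5⟩ := ih3 hc
      exact ⟨c', h4, Or.inr (Or.inr h5)⟩

lemma Em.trans {f g h : Fr T Q} (h1 : Em f g) (h2 : Em g h) : Em f h := by
  induction h1 generalizing h with
  | nil => exact h2
  | term t _ ih =>
    cases h2 with
    | term _ h2 => exact Em.term t (ih h2)
  | @node q ch c2 ch' r r' e1 s1 e3 ih1 ih3 =>
    cases h2 with
    | @node _ _ c4 ch3 _ r3 e2 s2 e4 =>
      have e5 : Em r r3 := ih3 e4
      rcases s1 with ⟨_, rfl⟩ | s1 | s1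
      · exact Em.node q (ih1 e2) s2 e5
      · obtain ⟨c5, h5, h6⟩ := e2.sub s1
        exact Em.node q (ih1 h5) (h6.trans s2) e5
      · exact s1.elim

/-- tree embedding -/
def Kr (x y : Q × Fr T Q) : Prop := ∃ c, Em x.2 c ∧ Sub x.1 c (node y.1 y.2 nil)

lemma Kr.refl (x : Q × Fr T Q) : Kr x x := ⟨x.2, Em.refl _, Sub.self _ _ _⟩

lemma Kr.trans {x y z : Q × Fr T Q} (h1 : Kr x y) (h2 : Kr y z) : Kr x z := by
  obtain ⟨c1, e1, s1⟩ := h1
  obtain ⟨c2, e2, s2⟩ := h2
  have e3 : Em (node y.1 y.2 nil) (node y.1 c2 nil) := Em.node _ e2 (Sub.self _ _ _) Em.nil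
  obtain ⟨c3, e4, s4⟩ := e3.sub s1
  exact ⟨c3, e1.trans e4, s4.trans_tree s2⟩

lemma Kr.of_sub {x y : Q × Fr T Q} {z : Q × Fr T Q} (h1 : Kr x y)
    (h2 : Sub y.1 y.2 (node z.1 z.2 nil)) : Kr x z := by
  obtain ⟨c1, e1, s1⟩ := h1
  exact ⟨c1, e1, s1.trans_tree h2⟩

/-- the list of items at the root level -/
def items : Fr T Q → List (T ⊕ (Q × Fr T Q))
  | nil => []
  | term t r => Sum.inl t :: items r
  | node q ch r => Sum.inr (q, ch) :: items r

lemma sub_of_mem_items {f : Fr T Q} {y : Q × Fr T Q} (h : Sum.inr y ∈ items f) :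
    Sub y.1 y.2 f := by
  induction f with
  | nil => simp [items] at h
  | term t r ih =>
    simp only [items, List.mem_cons, reduceCtorEq, false_or] at h
    exact ih h
  | node q ch r ih1 ih2 =>
    simp only [items, List.mem_cons, Sum.inr.injEq] at h
    rcases h with rfl | h
    · exact Sub.self _ _ _
    · exact Or.inr (Or.inr (ih2 h))

def It : T ⊕ (Q × Fr T Q) → T ⊕ (Q × Fr T Q) → Prop
  | Sum.inl t, Sum.inl t' => t = t'
  | Sum.inr x, Sum.inr y => x.1 = y.1 ∧ Kr x y
  | _, _ => False

instance : IsPreorder (Q × Fr T Q) Kr where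
  refl := Kr.refl
  trans := fun _ _ _ => Kr.trans

instance : IsPreorder (T ⊕ (Q × Fr T Q)) It where
  refl := by
    rintro (t | x)
    · rfl
    · exact ⟨rfl, Kr.refl x⟩
  trans := by
    rintro (t | x) (t' | x') (t2 | x2) h1 h2
    · exact Eq.trans h1 h2
    · exact h2.elim
    · exact h1.elim
    · exact h1.elim
    · exact h1.elim
    · exact h1.elim
    · exact h2.elim
    · exact ⟨h1.1.trans h2.1, h1.2.trans h2.2⟩

lemma em_of_forall₂ {f g : Fr T Q} (h : List.Forall₂ It (items f) (items g)) : Em f g := by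
  induction f generalizing g with
  | nil =>
    cases g with
    | nil => exact Em.nil
    | term t r => simp [items] at h
    | node q ch r => simp [items] at h
  | term t r ih =>
    cases g with
    | nil => simp [items] at h
    | term t' r' =>
      simp only [items, List.forall₂_cons] at h
      obtain ⟨h1, h2⟩ := h
      have : t = t' := h1
      subst this
      exact Em.term t (ih h2)
    | node q ch r =>
      simp only [items, List.forall₂_cons] at h
      exact h.1.elim
  | node q ch r ih1 ih2 =>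
    cases g with
    | nil => simp [items] at h
    | term t' r' =>
      simp only [items, List.forall₂_cons] at h
      exact h.1.elim
    | node q' ch' r' =>
      simp only [items, List.forall₂_cons] at h
      obtain ⟨⟨h1, c, h2, h3⟩, h4⟩ := h
      have h1' : q = q' := h1
      subst h1'
      exact Em.node q h2 h3 (ih2 h4)

/-- all labels satisfy `P` and all nodes have at most `L` children -/
def Bd (P : Q → Prop) (L : ℕ) : Fr T Q → Prop
  | nil => True
  | term _ r => Bd P L r
  | node q ch r => P q ∧ (items ch).length ≤ L ∧ Bd P L ch ∧ Bd P L r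

lemma Bd.sub {P : Q → Prop} {L : ℕ} {f : Fr T Q} (h : Bd P L f) {q : Q} {c : Fr T Q}
    (hs : Sub q c f) : P q ∧ (items c).length ≤ L ∧ Bd P L c := by
  induction f with
  | nil => exact hs.elim
  | term t r ih => exact ih h hs
  | node q' ch r ih1 ih2 =>
    obtain ⟨h1, h2, h3, h4⟩ := h
    rcases hs with ⟨rfl, rfl⟩ | hs | hs
    · exact ⟨h1, h2, h3⟩
    · exact ih1 h3 hs
    · exact ih2 h4 hs

theorem kruskal [Finite T] {P : Q → Prop} (hP : {q | P q}.Finite) (L : ℕ) :
    {x : Q × Fr T Q | P x.1 ∧ (items x.2).length ≤ L ∧ Bd P L x.2}.PartiallyWellOrderedOn Kr := by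
  rw [Set.PartiallyWellOrderedOn.iff_not_exists_isMinBadSeq (fun x => x.2.size)]
  rintro ⟨f, hbad, hmin⟩
  set 𝒯 := {x : Q × Fr T Q | P x.1 ∧ (items x.2).length ≤ L ∧ Bd P L x.2} with h𝒯
  -- children form a well-quasi-ordered set
  have hC : {y : Q × Fr T Q | ∃ n, Sum.inr y ∈ items (f n).2}.PartiallyWellOrderedOn Kr := by
    rw [Set.partiallyWellOrderedOn_iff_exists_lt]
    intro g hg
    choose n hn using hg
    obtain ⟨i0, hi0⟩ : ∃ i0, ∀ i, n i0 ≤ n i := by
      obtain ⟨i0, hi0⟩ := (wellFounded_lt (α := ℕ)).has_min (Set.range n) ⟨n 0, 0, rfl⟩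
      obtain ⟨⟨j, rfl⟩, hj⟩ := hi0
      exact ⟨j, fun i => not_lt.1 (hj (n i) ⟨i, rfl⟩)⟩
    have hlt : (g i0).2.size < (f (n i0)).2.size := (sub_of_mem_items (hn i0)).size_lt
    have hnb := hmin (n i0) (fun m => if m < n i0 then f m else g (i0 + (m - n i0)))
      (fun m hm => by simp [hm]) (by simpa using hlt)
    have hin : ∀ m, (fun m => if m < n i0 then f m else g (i0 + (m - n i0))) m ∈ 𝒯 := by
      intro m
      simp only
      split_ifs with hm
      · exact hbad.1 m
      · have h1 := hbad.1 (n (i0 + (m - n i0)))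
        exact h1.2.2.sub (sub_of_mem_items (hn _))
    have : ∃ m m', m < m' ∧ Kr ((fun m => if m < n i0 then f m else g (i0 + (m - n i0))) m)
        ((fun m => if m < n i0 then f m else g (i0 + (m - n i0))) m') := by
      by_contra hcon
      push Not at hcon
      exact hnb ⟨hin, hcon⟩
    obtain ⟨m, m', hmm, hk⟩ := this
    simp only at hk
    by_cases hm' : m' < n i0
    · rw [if_pos hm', if_pos (hmm.trans hm')] at hk
      exact absurd hk (hbad.2 m m' hmm)
    · rw [if_neg hm'] at hk
      by_cases hm : m < n i0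
      · rw [if_pos hm] at hk
        have h2 : Kr (f m) (f (n (i0 + (m' - n i0)))) := by
          refine hk.of_sub ?_
          exact Or.inr (Or.inl (sub_of_mem_items (hn _)))
        exact absurd h2 (hbad.2 m _ (lt_of_lt_of_le hm (hi0 _)))
      · rw [if_neg hm] at hk
        exact ⟨_, _, by omega, hk⟩
  -- items form a well-quasi-ordered set
  have hI : {z : T ⊕ (Q × Fr T Q) | (∃ t, z = Sum.inl t) ∨
      ∃ y, z = Sum.inr y ∧ P y.1 ∧ ∃ n, Sum.inr y ∈ items (f n).2}.PartiallyWellOrderedOn It := by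
    have h1 : {z : T ⊕ (Q × Fr T Q) | ∃ t, z = Sum.inl t}.PartiallyWellOrderedOn It := by
      apply Set.Finite.partiallyWellOrderedOn
      have : {z : T ⊕ (Q × Fr T Q) | ∃ t, z = Sum.inl t} = Set.range Sum.inl := by
        ext z; simp [eq_comm]
      rw [this]
      exact Set.finite_range _
    have h2 : {z : T ⊕ (Q × Fr T Q) | ∃ y, z = Sum.inr y ∧ P y.1 ∧
        ∃ n, Sum.inr y ∈ items (f n).2}.PartiallyWellOrderedOn It := by
      rw [Set.partiallyWellOrderedOn_iff_exists_lt]
      intro g hg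
      choose y hy using hg
      have hprod := (hP.partiallyWellOrderedOn (r := (· = ·))).prod hC
      rw [Set.partiallyWellOrderedOn_iff_exists_lt] at hprod
      obtain ⟨m, n, hmn, h3, h4⟩ := hprod (fun i => ((y i).1, y i))
        (fun i => ⟨(hy i).2.1, (hy i).2.2⟩)
      refine ⟨m, n, hmn, ?_⟩
      rw [(hy m).1, (hy n).1]
      exact ⟨h3, h4⟩
    exact h1.union h2
  have hL := Set.PartiallyWellOrderedOn.partiallyWellOrderedOn_sublistForall₂ It hI
  have hfin : (Set.Iic L).PartiallyWellOrderedOn (· = ·) :=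
    (Set.finite_Iic L).partiallyWellOrderedOn
  have hprod := (hP.partiallyWellOrderedOn (r := (· = ·))).prod (hfin.prod hL)
  rw [Set.partiallyWellOrderedOn_iff_exists_lt] at hprod
  obtain ⟨m, n, hmn, h3, h4, h5⟩ := hprod
    (fun i => ((f i).1, ((items (f i).2).length, items (f i).2)))
    (fun i => by
      refine ⟨(hbad.1 i).1, (hbad.1 i).2.1, ?_⟩
      intro x hx
      rcases x with t | y
      · exact Or.inl ⟨t, rfl⟩
      · refine Or.inr ⟨y, rfl, ?_, i, hx⟩
        exact ((hbad.1 i).2.2.sub (sub_of_mem_items hx)).1)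
  simp only at h3 h4 h5
  rw [List.sublistForall₂_iff] at h5
  obtain ⟨l, h6, h7⟩ := h5
  have h8 : l = items (f n).2 := by
    apply h7.eq_of_length
    rw [← h6.length_eq, h4]
  rw [h8] at h6
  refine hbad.2 m n hmn ⟨(f n).2, em_of_forall₂ h6, ?_⟩
  rw [h3]
  exact Sub.self _ _ _

end Fr

end Pool.Agent.Lib.MP835627
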