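import Pool.Agent.Lib.MP_835627_lc.Positions

/-!
The linear algebra: simple noncrossing pumps whose consistent combinations are all diagonal
must connect the two ends of every node of the perfect binary tree.
-/

set_option autoImplicit false

namespace Pool.Agent.Lib.MP835627

open Finset

lemma sum_get {A M : Type} [AddCommMonoid M] (f : A → M) (l : List A) :
    ∑ i : Fin l.length, f (l.get i) = (l.map f).sum := by
  induction l with
  | nil => simp
  | cons x l ih =>
    rw [List.map_cons, List.sum_cons, ← ih]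
    exact Fin.sum_univ_succ (n := l.length) (fun i => f ((x :: l).get i))

def PCq (m : ℕ) (x : ℕ → ℚ) : Prop :=
  ∀ i, i ≤ m → ∀ k, k % 2 = 1 → k + 1 < 2 ^ (i + 1) → x (ps m i k) = x (ps m i (k + 1))

def DGq (m : ℕ) (x : ℕ → ℚ) : Prop :=
  ∀ i, i ≤ m → ∀ k, k < 2 ^ (i + 1) → x (ps m i k) = x (ps m i 0)

/-- pump vectors over `ℚ` -/
def wv (Ps : List Pp) (e : Fin Ps.length) : ℕ → ℚ := fun s => ((Ps.get e).2.2 s : ℚ)

structure Data (m : ℕ) (Ps : List Pp) (v0 : ℕ → ℕ) (p D : ℕ) : Prop where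
  hv0 : ∀ i, i ≤ ln m → v0 i = p
  hD : 0 < D
  hsum : ∀ i, i ≤ ln m → (Ps.map (fun q => q.2.2)).sum i = D
  hrange : ∀ q ∈ Ps, q.1 ≤ q.2.1 ∧ q.2.1 ≤ ln m
  hsupp : ∀ q ∈ Ps, ∀ i, q.2.2 i ≠ 0 → i = q.1 ∨ i = q.2.1
  hdiag : ∀ u ∈ Cl Ps, Pc m 0 (v0 + u) → ∃ g, Dg m 0 g (v0 + u)
  hnc : ∀ q ∈ Ps, ∀ q' ∈ Ps, ¬ (q.1 < q'.1 ∧ q'.1 < q.2.1 ∧ q.2.1 < q'.2.1)

variable {m : ℕ} {Ps : List Pp} {v0 : ℕ → ℕ} {p D : ℕ}

lemma sum_wv (hd : Data m Ps v0 p D) (s : ℕ) (hs : s ≤ ln m) :
    ∑ e, wv Ps e s = D := by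
  have h1 := hd.hsum s hs
  have h2 : (∑ e : Fin Ps.length, (Ps.get e).2.2) s = D := by
    rw [sum_get (fun q : Pp => q.2.2)]; exact h1
  rw [Finset.sum_apply] at h2
  unfold wv
  exact_mod_cast h2

lemma stepA (hd : Data m Ps v0 p D) {x : ℕ → ℚ}
    (hx : x ∈ Submodule.span ℚ (Set.range (wv Ps))) (hP : PCq m x) : DGq m x := by
  obtain ⟨c, rfl⟩ := (Submodule.mem_span_range_iff_exists_fun ℚ).1 hx
  obtain ⟨⟨b, hb0⟩, hb⟩ := IsLocalization.exist_integer_multiples (nonZeroDivisors ℤ)
    (Finset.univ : Finset (Fin Ps.length)) c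
  have hb1 : b ≠ 0 := nonZeroDivisors.ne_zero hb0
  have hb2 : (b : ℚ) ≠ 0 := by exact_mod_cast hb1
  choose z hz using fun i => hb i (Finset.mem_univ i)
  have hz' : ∀ i, (z i : ℚ) = (b : ℚ) * c i := by
    intro i
    have := hz i
    simp only [algebraMap_int_eq, eq_intCast] at this
    rw [this]
    exact zsmul_eq_mul _ _
  set R : ℕ := ∑ i, (z i).natAbs with hR
  set t : Fin Ps.length → ℕ := fun i => ((R : ℤ) + z i).toNat with ht
  have ht' : ∀ i, (t i : ℚ) = R + z i := by
    intro i
    have h1 : (z i).natAbs ≤ R := Finset.single_le_sum (f := fun i => (z i).natAbs)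
      (fun _ _ => Nat.zero_le _) (Finset.mem_univ i)
    have h2 : ((t i : ℕ) : ℤ) = (R : ℤ) + z i := by
      simp only [ht]
      rw [Int.toNat_of_nonneg]
      omega
    exact_mod_cast h2
  set u : ℕ → ℕ := ∑ i, t i • (Ps.get i).2.2 with hu
  have huCl : u ∈ Cl Ps := by
    refine AddSubmonoid.sum_mem _ fun i _ => AddSubmonoid.nsmul_mem _ ?_ _
    exact AddSubmonoid.subset_closure ⟨Ps.get i, List.get_mem _ _, rfl⟩
  have hval : ∀ s, s ≤ ln m → (((v0 + u) s : ℕ) : ℚ) =
      p + R * D + b * (∑ i, c i • wv Ps i) s := by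
    intro s hs
    have h1 : ((u s : ℕ) : ℚ) = ∑ i, (t i : ℚ) * wv Ps i s := by
      rw [hu, Finset.sum_apply, Nat.cast_sum]
      apply Finset.sum_congr rfl
      intro i _
      rw [Pi.smul_apply, smul_eq_mul, Nat.cast_mul]
      rfl
    have h2 : (∑ i, c i • wv Ps i) s = ∑ i, c i * wv Ps i s := by
      rw [Finset.sum_apply]; rfl
    rw [Pi.add_apply, hd.hv0 s hs]
    push_cast
    rw [h1, h2, Finset.mul_sum, ← sum_wv hd s hs, Finset.mul_sum, add_assoc,
      ← Finset.sum_add_distrib]
    congr 1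
    apply Finset.sum_congr rfl
    intro i _
    rw [ht', hz']; ring
  have hPc : Pc m 0 (v0 + u) := by
    apply Pc_of_ps
    intro i hi k hk hk'
    have h1 := hval _ (ps_range m i hi k (by omega))
    have h2 := hval _ (ps_range m i hi (k + 1) hk')
    rw [hP i hi k hk hk', ← h2] at h1
    exact_mod_cast h1
  obtain ⟨g, hg⟩ := hd.hdiag u huCl hPc
  intro i hi k hk
  have hpos : 0 < 2 ^ (i + 1) := by positivity
  have h1 := hval _ (ps_range m i hi k hk)
  have h2 := hval _ (ps_range m i hi 0 hpos)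
  rw [Dg_ps hg i hi k hk] at h1
  rw [Dg_ps hg i hi 0 hpos] at h2
  rw [h1] at h2
  have h3 := add_left_cancel h2
  exact mul_left_cancel₀ hb2 h3

abbrev Node (m : ℕ) : Type := Σ i : Fin (m + 1), Fin (2 ^ (i : ℕ))

lemma card_Node (m : ℕ) : 2 * Fintype.card (Node m) = ln m + 1 := by
  rw [ln_eq, Fintype.card_sigma]
  simp only [Fintype.card_fin]
  rw [Fin.sum_univ_eq_sum_range (fun i => 2 ^ i), Nat.geomSum_eq (le_refl 2)]
  simp

noncomputable def Psi (m : ℕ) : (ℕ → ℚ) →ₗ[ℚ] (Node m → ℚ) :=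
  LinearMap.pi (fun n => LinearMap.proj (R := ℚ) (φ := fun _ : ℕ => ℚ)
    (ps m n.1 (2 * (n.2 : ℕ))) -
    if (n.2 : ℕ) = 0 then 0 else LinearMap.proj (R := ℚ) (φ := fun _ : ℕ => ℚ)
      (ps m n.1 (2 * (n.2 : ℕ) - 1)))

lemma Psi_apply (m : ℕ) (x : ℕ → ℚ) (n : Node m) : Psi m x n =
    x (ps m n.1 (2 * (n.2 : ℕ))) -
      if (n.2 : ℕ) = 0 then 0 else x (ps m n.1 (2 * (n.2 : ℕ) - 1)) := by
  unfold Psi
  rw [LinearMap.pi_apply, LinearMap.sub_apply]
  split_ifs <;> simp

/-- `Psi` detects consistency -/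
lemma PCq_of_Psi {x : ℕ → ℚ} (h : ∀ n : Node m, (n.2 : ℕ) ≠ 0 → Psi m x n = 0) : PCq m x := by
  intro i hi k hk hk'
  obtain ⟨j, rfl⟩ : ∃ j, k = 2 * j + 1 := ⟨k / 2, by omega⟩
  have hj : j + 1 < 2 ^ i := by rw [pow_succ] at hk'; omega
  have h1 := h ⟨⟨i, by omega⟩, ⟨j + 1, hj⟩⟩ (by simp)
  rw [Psi_apply] at h1
  simp only [Nat.add_eq_zero_iff, one_ne_zero, and_false, if_false] at h1
  have e1 : 2 * (j + 1) - 1 = 2 * j + 1 := by omega
  have e2 : 2 * (j + 1) = 2 * j + 1 + 1 := by omega
  rw [e1, e2] at h1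
  linarith

lemma span_zero_outside (hd : Data m Ps v0 p D) {x : ℕ → ℚ}
    (hx : x ∈ Submodule.span ℚ (Set.range (wv Ps))) {s : ℕ} (hs : ln m < s) : x s = 0 := by
  obtain ⟨c, rfl⟩ := (Submodule.mem_span_range_iff_exists_fun ℚ).1 hx
  rw [Finset.sum_apply]
  apply Finset.sum_eq_zero
  intro e _
  have h1 := hd.hrange (Ps.get e) (List.get_mem _ _)
  have h2 := hd.hsupp (Ps.get e) (List.get_mem _ _) s
  have h3 : (Ps.get e).2.2 s = 0 := by
    by_contra hcon
    have := h2 hcon
    omega
  have h4 : wv Ps e s = 0 := by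
    unfold wv
    rw [h3]; norm_num
  rw [Pi.smul_apply, h4, smul_zero]

theorem key (hd : Data m Ps v0 p D) : ∀ i, i ≤ m → ∀ j, j < 2 ^ i →
    ∃ q ∈ Ps, q.1 = st m i j ∧ q.2.1 = st m i j + ln (m - i) := by
  classical
  obtain ⟨κ, a, ha, hspan, hLI⟩ := exists_linearIndependent' ℚ (wv Ps)
  have hfin : Finite κ := Finite.of_injective a ha
  have := Fintype.ofFinite κ
  -- Psi stays independent
  have hdisj : Disjoint (Submodule.span ℚ (Set.range (wv Ps ∘ a))) (LinearMap.ker (Psi m)) := by
    rw [Submodule.disjoint_def]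
    intro x hx hker
    rw [hspan] at hx
    rw [LinearMap.mem_ker] at hker
    have hPC : PCq m x := PCq_of_Psi (fun n _ => by rw [hker]; rfl)
    have hDG := stepA hd hx hPC
    ext s
    by_cases hs : s ≤ ln m
    · obtain ⟨i, k, hi, hk, rfl⟩ := ps_surj m s hs
      rw [hDG i hi k hk]
      have h1 : Psi m x ⟨⟨i, by omega⟩, ⟨0, by positivity⟩⟩ = 0 := by rw [hker]; rfl
      rw [Psi_apply] at h1
      simpa using h1
    · exact span_zero_outside hd hx (by omega)
  have hLI2 : LinearIndependent ℚ (Psi m ∘ (wv Ps ∘ a)) := hLI.map hdisj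
  have hcard : Fintype.card κ ≤ Fintype.card (Node m) := by
    have := hLI2.fintype_card_le_finrank
    rwa [Module.finrank_fintype_fun_eq_card] at this
  -- every slot is covered
  have hcover : ∀ s, s ≤ ln m → ∃ k : κ, wv Ps (a k) s ≠ 0 := by
    intro s hs
    by_contra hcon
    push Not at hcon
    have hz : ∀ x ∈ Submodule.span ℚ (Set.range (wv Ps ∘ a)), x s = 0 := by
      intro x hx
      obtain ⟨c, rfl⟩ := (Submodule.mem_span_range_iff_exists_fun ℚ).1 hx
      rw [Finset.sum_apply]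
      apply Finset.sum_eq_zero
      intro e _
      simp [hcon e]
    have h1 := hz (∑ e, wv Ps e) (by
      rw [hspan]
      exact Submodule.sum_mem _ fun e _ => Submodule.subset_span ⟨e, rfl⟩)
    rw [Finset.sum_apply, sum_wv hd s hs] at h1
    have := hd.hD
    have h2 : (D : ℚ) ≠ 0 := by positivity
    exact h2 h1
  have hne : Nonempty κ := ⟨(hcover 0 (Nat.zero_le _)).choose⟩
  choose! f hf using hcover
  -- supports
  have hsup : ∀ (k : κ) (s : ℕ), wv Ps (a k) s ≠ 0 →
      s = (Ps.get (a k)).1 ∨ s = (Ps.get (a k)).2.1 := by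
    intro k s hs
    apply hd.hsupp _ (List.get_mem _ _)
    intro h0
    exact hs (by simp only [wv, h0]; norm_num)
  set fib : κ → Finset ℕ := fun k => (Finset.range (ln m + 1)).filter (fun s => f s = k) with hfib
  have hfibsub : ∀ k, fib k ⊆ {(Ps.get (a k)).1, (Ps.get (a k)).2.1} := by
    intro k s hs
    rw [hfib, Finset.mem_filter, Finset.mem_range] at hs
    have h1 := hf s (by omega)
    rw [hs.2] at h1
    rcases hsup k s h1 with h | h <;> simp [h]
  have hfib2 : ∀ k, (fib k).card ≤ 2 := fun k =>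
    (Finset.card_le_card (hfibsub k)).trans Finset.card_le_two
  have hsumfib : ∑ k : κ, (fib k).card = ln m + 1 := by
    have := Finset.card_eq_sum_card_fiberwise (f := f) (s := Finset.range (ln m + 1))
      (t := Finset.univ) (fun _ _ => by simp)
    rw [Finset.card_range] at this
    exact this.symm
  have hN := card_Node m
  have hcard2 : Fintype.card κ = Fintype.card (Node m) := by
    have h1 : ∑ k : κ, (fib k).card ≤ ∑ k : κ, 2 := Finset.sum_le_sum fun k _ => hfib2 k
    rw [Finset.sum_const, Finset.card_univ, smul_eq_mul] at h1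
    omega
  have hfibeq : ∀ k, (fib k).card = 2 := by
    intro k
    by_contra hne
    have hlt : (fib k).card < 2 := lt_of_le_of_ne (hfib2 k) hne
    have h1 : ∑ k : κ, (fib k).card < ∑ k : κ, 2 :=
      Finset.sum_lt_sum (fun k _ => hfib2 k) ⟨k, Finset.mem_univ _, hlt⟩
    rw [Finset.sum_const, Finset.card_univ, smul_eq_mul] at h1
    omega
  have hfibpair : ∀ k, fib k = {(Ps.get (a k)).1, (Ps.get (a k)).2.1} := by
    intro k
    apply Finset.eq_of_subset_of_card_le (hfibsub k)
    rw [hfibeq k]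
    exact Finset.card_le_two
  have hpairne : ∀ k, (Ps.get (a k)).1 ≠ (Ps.get (a k)).2.1 := by
    intro k h
    have h1 := hfibeq k
    rw [hfibpair k, h] at h1
    simp at h1
  -- uniqueness
  have huniq : ∀ (k : κ) (s : ℕ), wv Ps (a k) s ≠ 0 → f s = k := by
    intro k s hs
    have h1 : s ∈ fib k := by
      rw [hfibpair k]
      rcases hsup k s hs with h | h <;> simp [h]
    rw [hfib, Finset.mem_filter] at h1
    exact h1.2
  -- the vectors of the levels
  have hlev : ∀ i, i ≤ m → ∃ c : κ → ℚ, ∀ i', i' ≤ m → ∀ k, k < 2 ^ (i' + 1) →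
      c (f (ps m i' k)) * wv Ps (a (f (ps m i' k))) (ps m i' k) = if i' = i then 1 else 0 := by
    intro i hi
    have htop : Submodule.span ℚ (Set.range (Psi m ∘ (wv Ps ∘ a))) = ⊤ := by
      apply hLI2.span_eq_top_of_card_eq_finrank'
      rw [Module.finrank_fintype_fun_eq_card, hcard2]
    have hmem : (fun n : Node m => if (n.1 : ℕ) = i ∧ (n.2 : ℕ) = 0 then (1 : ℚ) else 0) ∈
        Submodule.span ℚ (Set.range (Psi m ∘ (wv Ps ∘ a))) := by
      rw [htop]; trivial
    obtain ⟨c, hc⟩ := (Submodule.mem_span_range_iff_exists_fun ℚ).1 hmem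
    set x : ℕ → ℚ := ∑ k, c k • wv Ps (a k) with hx
    have hPsi : Psi m x =
        (fun n : Node m => if (n.1 : ℕ) = i ∧ (n.2 : ℕ) = 0 then (1 : ℚ) else 0) := by
      rw [← hc, hx, map_sum]
      apply Finset.sum_congr rfl
      intro k _
      rw [map_smul]; rfl
    have hxspan : x ∈ Submodule.span ℚ (Set.range (wv Ps)) := by
      rw [hx]
      exact Submodule.sum_mem _ fun k _ => Submodule.smul_mem _ _ (Submodule.subset_span ⟨_, rfl⟩)
    have hPC : PCq m x := by
      apply PCq_of_Psi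
      intro n hn
      rw [hPsi]
      simp [hn]
    have hDG := stepA hd hxspan hPC
    refine ⟨c, ?_⟩
    intro i' hi' k hk
    have h1 : x (ps m i' k) = if i' = i then 1 else 0 := by
      rw [hDG i' hi' k hk]
      have h2 := congrFun hPsi ⟨⟨i', by omega⟩, ⟨0, by positivity⟩⟩
      rw [Psi_apply] at h2
      simpa using h2
    rw [← h1, hx, Finset.sum_apply]
    symm
    rw [Finset.sum_eq_single (f (ps m i' k))]
    · rfl
    · intro k' _ hk'
      have : wv Ps (a k') (ps m i' k) = 0 := by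
        by_contra hcon
        exact hk' (huniq k' _ hcon).symm
      simp [this]
    · intro h; exact absurd (Finset.mem_univ _) h
  -- partners
  have hpartner : ∀ i, i ≤ m → ∀ k, k < 2 ^ (i + 1) → ∃ k', k' < 2 ^ (i + 1) ∧ k' ≠ k ∧
      fib (f (ps m i k)) = {ps m i k, ps m i k'} := by
    intro i hi k hk
    set s := ps m i k with hs
    have hsr : s ≤ ln m := ps_range m i hi k hk
    have hsm : s ∈ fib (f s) := by
      rw [hfib, Finset.mem_filter, Finset.mem_range]
      exact ⟨by omega, rfl⟩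
    obtain ⟨s', hs', hne⟩ : ∃ s' ∈ fib (f s), s' ≠ s := by
      have h1 : 1 < (fib (f s)).card := by rw [hfibeq]; norm_num
      obtain ⟨x, hx, y, hy, hxy⟩ := Finset.one_lt_card.1 h1
      by_cases hxs : x = s
      · exact ⟨y, hy, fun h => hxy (hxs.trans h.symm)⟩
      · exact ⟨x, hx, hxs⟩
    have hs'2 : s' ≤ ln m ∧ f s' = f s := by
      rw [hfib, Finset.mem_filter, Finset.mem_range] at hs'
      exact ⟨by omega, hs'.2⟩
    obtain ⟨i', k', hi', hk', hik⟩ := ps_surj m s' hs'2.1
    obtain ⟨c, hc⟩ := hlev i hi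
    have h1 := hc i hi k hk
    rw [if_pos rfl] at h1
    have hcne : c (f s) ≠ 0 := by
      intro h0
      rw [← hs, h0, zero_mul] at h1
      exact zero_ne_one h1
    have h2 := hc i' hi' k' hk'
    rw [hik, hs'2.2] at h2
    have hw : wv Ps (a (f s)) s' ≠ 0 := by
      have := hf s' hs'2.1
      rwa [hs'2.2] at this
    have hii : i' = i := by
      by_contra hii
      rw [if_neg hii] at h2
      exact (mul_ne_zero hcne hw) h2
    subst hii
    refine ⟨k', hk', ?_, ?_⟩
    · rintro rfl
      exact hne hik.symm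
    · symm
      apply Finset.eq_of_subset_of_card_le
      · intro x hx
        rw [Finset.mem_insert, Finset.mem_singleton] at hx
        rcases hx with rfl | rfl
        · exact hsm
        · rw [hik]; exact hs'
      · rw [hfibeq, Finset.card_pair]
        rw [hik]
        exact hne.symm
  choose! μ hμ1 hμ2 hμ3 using hpartner
  -- main
  have hmain : ∀ i, i ≤ m → ∀ j, 2 * j + 1 < 2 ^ (i + 1) → μ i (2 * j) = 2 * j + 1 := by
    intro i hi
    have hinvol : ∀ k, k < 2 ^ (i + 1) → μ i (μ i k) = k := by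
      intro k hk
      have h1 := hμ3 i hi k hk
      have h2 := hμ3 i hi (μ i k) (hμ1 i hi k hk)
      have hf2 : f (ps m i (μ i k)) = f (ps m i k) := by
        have : ps m i (μ i k) ∈ fib (f (ps m i k)) := by rw [h1]; simp
        rw [hfib, Finset.mem_filter] at this
        exact this.2
      rw [hf2, h1] at h2
      have h3 : ps m i k ∈ ({ps m i (μ i k), ps m i (μ i (μ i k))} : Finset ℕ) := by
        rw [← h2]; simp
      rw [Finset.mem_insert, Finset.mem_singleton] at h3
      rcases h3 with h3 | h3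
      · exact absurd (ps_inj m i hi hk (hμ1 i hi k hk) h3).symm (hμ2 i hi k hk)
      · exact (ps_inj m i hi hk (hμ1 i hi _ (hμ1 i hi k hk)) h3).symm
    have hends : ∀ k, k < 2 ^ (i + 1) → k < μ i k →
        (Ps.get (a (f (ps m i k)))).1 = ps m i k ∧
          (Ps.get (a (f (ps m i k)))).2.1 = ps m i (μ i k) := by
      intro k hk hlt
      have h1 := hμ3 i hi k hk
      rw [hfibpair] at h1
      have h2 := (hd.hrange _ (List.get_mem Ps (a (f (ps m i k))))).1
      have h3 := ps_mono m i hi hlt (hμ1 i hi k hk)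
      have h4 : (Ps.get (a (f (ps m i k)))).1 ∈ ({ps m i k, ps m i (μ i k)} : Finset ℕ) := by
        rw [← h1]; simp
      have h5 : (Ps.get (a (f (ps m i k)))).2.1 ∈ ({ps m i k, ps m i (μ i k)} : Finset ℕ) := by
        rw [← h1]; simp
      have h6 := hpairne (f (ps m i k))
      rw [Finset.mem_insert, Finset.mem_singleton] at h4 h5
      rcases h4 with h4 | h4 <;> rcases h5 with h5 | h5
      · exact absurd (h4.trans h5.symm) h6
      · exact ⟨h4, h5⟩
      · omega
      · exact absurd (h4.trans h5.symm) h6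
    have heven : 2 ^ (i + 1) % 2 = 0 := by rw [pow_succ]; omega
    refine comb heven (μ := μ i) (fun k hk => hμ1 i hi k hk) (fun k hk => hμ2 i hi k hk) hinvol
      ?_ ?_
    · -- noncrossing
      intro k1 k2 hk1 hk2 h12 h21 h1122
      have e1 := hends k1 hk1 (by omega)
      have e2 := hends k2 hk2 (by omega)
      have hn := hd.hnc _ (List.get_mem Ps (a (f (ps m i k1)))) _
        (List.get_mem Ps (a (f (ps m i k2))))
      rw [e1.1, e1.2, e2.1, e2.2] at hn
      exact hn ⟨ps_mono m i hi h12 hk2, ps_mono m i hi h21 (hμ1 i hi k1 hk1),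
        ps_mono m i hi h1122 (hμ1 i hi k2 hk2)⟩
    · -- closed intervals
      intro l r hlr hr hclosed hpair
      obtain ⟨c, hc⟩ := hlev i hi
      set Z : Finset κ := (Finset.Icc l r).image (fun k => f (ps m i k)) with hZ
      set x : ℕ → ℚ := ∑ k ∈ Z, c k • wv Ps (a k) with hx
      have hxspan : x ∈ Submodule.span ℚ (Set.range (wv Ps)) := by
        rw [hx]
        exact Submodule.sum_mem _ fun k _ =>
          Submodule.smul_mem _ _ (Submodule.subset_span ⟨_, rfl⟩)
      have hxval : ∀ i', i' ≤ m → ∀ k, k < 2 ^ (i' + 1) → x (ps m i' k) =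
          if f (ps m i' k) ∈ Z then (if i' = i then 1 else 0) else 0 := by
        intro i' hi' k hk
        rw [hx, Finset.sum_apply]
        by_cases hmem : f (ps m i' k) ∈ Z
        · rw [if_pos hmem, ← hc i' hi' k hk, Finset.sum_eq_single (f (ps m i' k))]
          · rfl
          · intro k' _ hk'
            have : wv Ps (a k') (ps m i' k) = 0 := by
              by_contra hcon
              exact hk' (huniq k' _ hcon).symm
            simp [this]
          · intro h; exact absurd hmem h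
        · rw [if_neg hmem]
          apply Finset.sum_eq_zero
          intro k' hk'
          have : wv Ps (a k') (ps m i' k) = 0 := by
            by_contra hcon
            exact hmem (by rw [huniq k' _ hcon]; exact hk')
          simp [this]
      have hZmem : ∀ k, k < 2 ^ (i + 1) → (f (ps m i k) ∈ Z ↔ l ≤ k ∧ k ≤ r) := by
        intro k hk
        constructor
        · intro h
          rw [hZ, Finset.mem_image] at h
          obtain ⟨k0, hk0, h0⟩ := h
          rw [Finset.mem_Icc] at hk0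
          have hk0n : k0 < 2 ^ (i + 1) := by omega
          have h1 := hμ3 i hi k0 hk0n
          have h2 : ps m i k ∈ fib (f (ps m i k0)) := by
            rw [hfib, Finset.mem_filter, Finset.mem_range, h0]
            have := ps_range m i hi k hk
            exact ⟨by omega, rfl⟩
          rw [h1, Finset.mem_insert, Finset.mem_singleton] at h2
          rcases h2 with h2 | h2
          · rw [ps_inj m i hi hk hk0n h2]; exact hk0
          · rw [ps_inj m i hi hk (hμ1 i hi k0 hk0n) h2]
            exact hclosed k0 hk0.1 hk0.2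
        · intro h
          rw [hZ, Finset.mem_image]
          exact ⟨k, Finset.mem_Icc.2 h, rfl⟩
      have hPC : PCq m x := by
        intro i' hi' k hk hk'
        rw [hxval i' hi' k (by omega), hxval i' hi' (k + 1) hk']
        by_cases hii : i' = i
        · subst hii
          have h1 := hZmem k (by omega)
          have h2 := hZmem (k + 1) hk'
          have h3 := hpair k hk hk'
          by_cases h4 : f (ps m i' k) ∈ Z
          · have h5 : f (ps m i' (k + 1)) ∈ Z := h2.2 (h3.1 (h1.1 h4))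
            rw [if_pos h4, if_pos h5]
          · have h5 : f (ps m i' (k + 1)) ∉ Z := fun h => h4 (h1.2 (h3.2 (h2.1 h)))
            rw [if_neg h4, if_neg h5]
        · simp [hii]
      have hDG := stepA hd hxspan hPC
      have hall : ∀ k, k < 2 ^ (i + 1) → l ≤ k ∧ k ≤ r := by
        intro k hk
        have h1 := hDG i hi k hk
        have h2 := hDG i hi l (by omega)
        rw [← h2, hxval i hi k hk, hxval i hi l (by omega), if_pos rfl,
          if_pos ((hZmem l (by omega)).2 ⟨le_rfl, hlr⟩)] at h1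
        by_contra hcon
        rw [if_neg (fun h => hcon ((hZmem k hk).1 h))] at h1
        exact zero_ne_one h1
      have hpos : 0 < 2 ^ (i + 1) := by positivity
      have h1 := hall 0 hpos
      have h2 := hall (2 ^ (i + 1) - 1) (by omega)
      omega
  intro i hi j hj
  have hk : 2 * j + 1 < 2 ^ (i + 1) := by rw [pow_succ]; omega
  have h1 := hmain i hi j hk
  have h2 := hμ3 i hi (2 * j) (by omega)
  rw [h1, hfibpair] at h2
  refine ⟨Ps.get (a (f (ps m i (2 * j)))), List.get_mem _ _, ?_⟩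
  have h3 := (hd.hrange _ (List.get_mem Ps (a (f (ps m i (2 * j)))))).1
  have h4 : (Ps.get (a (f (ps m i (2 * j))))).1 ∈
      ({ps m i (2 * j), ps m i (2 * j + 1)} : Finset ℕ) := by
    rw [← h2]; simp
  have h5 : (Ps.get (a (f (ps m i (2 * j))))).2.1 ∈
      ({ps m i (2 * j), ps m i (2 * j + 1)} : Finset ℕ) := by
    rw [← h2]; simp
  have h6 := hpairne (f (ps m i (2 * j)))
  have h7 : ps m i (2 * j) < ps m i (2 * j + 1) := ps_mono m i hi (Nat.lt_succ_self (2 * j)) hk
  rw [Finset.mem_insert, Finset.mem_singleton] at h4 h5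
  have e1 := ps_even m i j
  have e2 := ps_odd m i j
  rcases h4 with h4 | h4 <;> rcases h5 with h5 | h5
  · exact absurd (h4.trans h5.symm) h6
  · exact ⟨h4.trans e1, h5.trans e2⟩
  · omega
  · exact absurd (h4.trans h5.symm) h6

end Pool.Agent.Lib.MP835627
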