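import Pool.Agent.Lib.MP_835627_lc.LinAlg

/-!
The language `Lg` is not of finite index.
-/

set_option autoImplicit false

namespace Pool.Agent.Lib.MP835627

open Al Fr

variable {G : ContextFreeGrammar Al}

lemma items_length (f : FF G) : (items f).length = (roots f).length := by
  induction f with
  | nil => rfl
  | term t r ih => simp [items, roots, ih]
  | node q ch r ih1 ih2 => simp [items, roots, ih2]

/-- the labels that can occur -/
def PL (G : ContextFreeGrammar Al) (N : ℕ) (q : Lb G) : Prop :=
  (∃ r ∈ G.rules, r.input = q.1) ∧ q.2.1 ≤ N ∧ q.2.2 ≤ N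

lemma PL_finite (N : ℕ) : {q : Lb G | PL G N q}.Finite := by
  classical
  have h1 : ((G.rules.image (fun r => r.input) : Finset G.NT) : Set G.NT).Finite :=
    Finset.finite_toSet _
  have h2 := h1.prod ((Set.finite_Iic N).prod (Set.finite_Iic N))
  refine h2.subset ?_
  rintro ⟨A, x, y⟩ ⟨⟨r, hr, hr2⟩, hx, hy⟩
  refine ⟨?_, hx, hy⟩
  simp only [Finset.coe_image, Set.mem_image, Finset.mem_coe]
  exact ⟨r, hr, hr2⟩

lemma Bd_of_VF {sp : List Al} {N L : ℕ} (hL : ∀ r ∈ G.rules, r.output.length ≤ L) {f : FF G}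
    {s s' : ℕ} (h : VF sp s f s') (hN : s' ≤ N) : Bd (PL G N) L f := by
  induction f generalizing s s' with
  | nil => trivial
  | term t r ih =>
    rw [VF_term] at h
    split_ifs at h with ht
    · exact ih h hN
    · exact ih h.2 hN
  | node q ch r ih1 ih2 =>
    obtain ⟨h1, h2, h3, h4⟩ := h
    have h5 := h3.le
    have h6 := h4.le
    refine ⟨⟨⟨_, h2, rfl⟩, by omega, by omega⟩, ?_, ih1 h3 (by omega), ih2 h4 hN⟩
    rw [items_length]
    exact hL _ h2

lemma Dg_const (p h s : ℕ) : Dg h s (fun _ => p) (fun _ => p) := by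
  induction h generalizing s with
  | zero => exact ⟨rfl, rfl⟩
  | succ h ih => exact ⟨rfl, rfl, ih _, ih _⟩

theorem not_finite_index (hG : G.language = Lg) (k : ℕ)
    (hidx : ∀ w ∈ G.language,
          Relation.ReflTransGen
            (fun u v : List (Symbol Al G.NT) =>
              G.Produces u v ∧
                {i : Fin v.length | ∃ n : G.NT, v.get i = Symbol.nonterminal n}.ncard ≤ k)
            [Symbol.nonterminal G.initial] (w.map Symbol.terminal)) : False := by
  classical
  set m := k + 1 with hm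
  set sp := seps m with hsp
  have hlen : sp.length = ln m := seps_length m
  -- forests
  have hforest : ∀ p : ℕ, ∃ ch : FF G,
      VF sp 0 (node (G.initial, 0, ln m) ch nil : FF G) (ln m) ∧
      (vec 0 (node (G.initial, 0, ln m) ch nil : FF G) = fun i => if i ≤ ln m then p else 0) ∧
      h1 (node (G.initial, 0, ln m) ch nil : FF G) ≤ m := by
    intro p
    have hmem : aw 0 sp (fun _ => p) ∈ G.language := by
      rw [hG]
      exact mem_of_diag (Dg_const p m 0)
    have hRd := Rd_aw (seps_ne_b m) sp 0 (fun _ => p) (List.drop_zero) (Nat.zero_le _)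
    obtain ⟨f, hf1, hf2, hf3, hf4⟩ := forest_of_index (K := m) (by omega) (hidx _ hmem)
      (by simp [nn]; omega) hRd
    cases f with
    | nil => simp [roots] at hf1
    | term t r => simp [roots] at hf1
    | node q ch r =>
      rw [roots_node, List.cons.injEq] at hf1
      obtain ⟨hq, hr⟩ := hf1
      have hr' : r = nil := by
        cases r with
        | nil => rfl
        | term t r => simp [roots] at hr
        | node q' ch' r' => simp [roots] at hr
      subst hr'
      obtain ⟨A, x, y⟩ := q
      obtain ⟨h1', h2', h3', h4'⟩ := hf2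
      have hA : A = G.initial := Symbol.nonterminal.inj hq
      have hx : x = 0 := h1'
      have hy : y = ln m := by rw [← hlen]; exact h4'
      subst hA hx hy
      refine ⟨ch, ⟨rfl, h2', h3', rfl⟩, ?_, h1_le_of_cnt hf4⟩
      rw [hf3, ← hsp]
      ext i
      simp [hlen]
  choose ch hch1 hch2 hch3 using hforest
  obtain ⟨L, hL⟩ : ∃ L, ∀ r ∈ G.rules, r.output.length ≤ L :=
    ⟨G.rules.sup (fun r => r.output.length), fun r hr => Finset.le_sup (f := fun r :
      ContextFreeRule Al G.NT => r.output.length) hr⟩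
  have hkr := kruskal (T := Al) (PL_finite (G := G) (ln m)) L
  rw [Set.partiallyWellOrderedOn_iff_exists_lt] at hkr
  obtain ⟨i, j, hij, c, hc1, hc2⟩ := hkr (fun p => ((G.initial, 0, ln m), ch p)) (by
    intro p
    have h1 := Bd_of_VF hL (hch1 p) le_rfl
    exact ⟨h1.1, h1.2.1, h1.2.2.1⟩)
  simp only at hc1 hc2
  have hem : Em (node (G.initial, 0, ln m) (ch i) nil : FF G)
      (node (G.initial, 0, ln m) (ch j) nil) := Em.node _ hc1 hc2 Em.nil
  obtain ⟨Ps, hp1, hp2, hp3⟩ := pump_of_em hem (hch1 i) (hch1 j)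
  rw [hch2 i, hch2 j] at hp2
  rw [hch2 i] at hp3
  have hdata : Data m Ps (fun s => if s ≤ ln m then i else 0) i (j - i) := by
    refine ⟨?_, by omega, ?_, ?_, ?_, ?_, ?_⟩
    · intro s hs; simp [hs]
    · intro s hs
      have := congrFun hp2 s
      simp only [Pi.add_apply, hs, if_true] at this
      omega
    · intro q hq
      obtain ⟨⟨A, c', hc'⟩, _⟩ := hp1 q hq
      have := (hch1 i).ctx hc'
      exact ⟨this.1.le, this.2.2.1⟩
    · intro q hq s hs
      exact (hp1 q hq).2 s hs
    · intro u hu hPc
      obtain ⟨w, hw1, hw2⟩ := hp3 u hu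
      rw [← hlen] at hw2
      have hw3 := eq_aw_of_Rd hw2
      rw [List.drop_zero] at hw3
      have hw4 : w ∈ G.language := hw1
      rw [hG, hw3] at hw4
      rw [hlen] at hw4
      exact diag_of_mem hw4 hPc
    · intro q hq q' hq'
      obtain ⟨⟨A, c', hc'⟩, _⟩ := hp1 q hq
      obtain ⟨⟨A2, c2, hc2⟩, _⟩ := hp1 q' hq'
      exact (hch1 i).noncross hc' hc2
  have hkey := key hdata
  have hall : ∀ p ∈ ND m 0, In p.1 p.2 (node (G.initial, 0, ln m) (ch i) nil : FF G) := by
    intro p hp
    obtain ⟨i', j', hi', hj', rfl⟩ := ND_nodes m p hp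
    obtain ⟨q, hq, hq1, hq2⟩ := hkey i' hi' j' hj'
    obtain ⟨⟨A, c', hc'⟩, _⟩ := hp1 q hq
    rw [hq1, hq2] at hc'
    exact ⟨A, c', hc'⟩
  have hbig := claim m _ _ _ _ (hch1 i) hall
  have hsmall := hch3 i
  omega

/-- The counterexample: `Lg` is EDT0L and context-free but not of finite index. -/
theorem main :
    ¬ (∀ (T : Type) [Fintype T] (L : Language T),
      ((∃ (V : Type) (_ : Fintype V) (ι : T → V) (tables : List (V → List V)) (ω : List V),
          Function.Injective ι ∧
          ∀ x : List T, x ∈ L ↔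
            ∃ sq : List (V → List V), (∀ h ∈ sq, h ∈ tables) ∧
              sq.foldl (fun u h => u.flatMap h) ω = x.map ι) ∧
        (∃ G : ContextFreeGrammar T, G.language = L)) ↔
      (∃ (G : ContextFreeGrammar T) (k : ℕ), G.language = L ∧
        ∀ w ∈ G.language,
          Relation.ReflTransGen
            (fun u v : List (Symbol T G.NT) =>
              G.Produces u v ∧
                {i : Fin v.length | ∃ n : G.NT, v.get i = Symbol.nonterminal n}.ncard ≤ k)
            [Symbol.nonterminal G.initial] (w.map Symbol.terminal))) := by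
  intro h
  obtain ⟨G, k, hG, hidx⟩ := (h Al Lg).1 ⟨edt0l, G0, cf_iff⟩
  exact not_finite_index hG k hidx

end Pool.Agent.Lib.MP835627
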