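import Pool.Agent.Lib.MP_835627_lc.Skeleton

/-!
Level by level enumeration of the slots of the perfect binary skeleton.
-/

set_option autoImplicit false

namespace Pool.Agent.Lib.MP835627

/-- start slot of the node `j` on level `i` -/
def st (m : ℕ) : ℕ → ℕ → ℕ
  | 0, _ => 0
  | i + 1, j => st m i (j / 2) + 1 + (j % 2) * (ln (m - (i + 1)) + 1)

/-- the slots on level `i`; even `k`: start slots, odd `k`: end slots -/
def ps (m i k : ℕ) : ℕ := st m i (k / 2) + (k % 2) * ln (m - i)

lemma ps_even (m i j : ℕ) : ps m i (2 * j) = st m i j := by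
  unfold ps
  rw [Nat.mul_mod_right, Nat.mul_div_cancel_left _ (by norm_num)]
  simp

lemma ps_odd (m i j : ℕ) : ps m i (2 * j + 1) = st m i j + ln (m - i) := by
  unfold ps
  have e1 : (2 * j + 1) / 2 = j := by omega
  have e2 : (2 * j + 1) % 2 = 1 := by omega
  rw [e1, e2, one_mul]

lemma st_left (m i j : ℕ) : st m (i + 1) (2 * j) = st m i j + 1 := by
  unfold st
  rw [Nat.mul_mod_right, Nat.mul_div_cancel_left _ (by norm_num)]
  cases i <;> simp [st]

lemma st_right (m i j : ℕ) :
    st m (i + 1) (2 * j + 1) = st m i j + ln (m - (i + 1)) + 2 := by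
  have e1 : (2 * j + 1) / 2 = j := by omega
  have e2 : (2 * j + 1) % 2 = 1 := by omega
  change st m i ((2 * j + 1) / 2) + 1 + ((2 * j + 1) % 2) * (ln (m - (i + 1)) + 1) = _
  rw [e1, e2]; omega

lemma ln_sub {m i : ℕ} (hi : i + 1 ≤ m) : ln (m - i) = 2 * ln (m - (i + 1)) + 3 := by
  have : m - i = (m - (i + 1)) + 1 := by omega
  rw [this]
  rfl

lemma Dg_node {m : ℕ} {g v : ℕ → ℕ} (hD : Dg m 0 g v) (i : ℕ) (hi : i ≤ m) (j : ℕ)
    (hj : j < 2 ^ i) : Dg (m - i) (st m i j) g v := by
  induction i generalizing j with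
  | zero => exact hD
  | succ i ih =>
    have hj2 : j / 2 < 2 ^ i := by
      rw [pow_succ] at hj; omega
    have h1 := ih (by omega) (j / 2) hj2
    have e : m - i = (m - (i + 1)) + 1 := by omega
    rw [e] at h1
    obtain ⟨_, _, h2, h3⟩ := h1
    rcases Nat.even_or_odd' j with ⟨j', rfl | rfl⟩
    · rw [st_left]
      rw [Nat.mul_div_cancel_left _ (by norm_num)] at h2
      exact h2
    · have e1 : (2 * j' + 1) / 2 = j' := by omega
      rw [e1] at h3
      rw [st_right]
      exact h3

lemma Dg_values {h s : ℕ} {g v : ℕ → ℕ} (hD : Dg h s g v) :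
    v s = g h ∧ v (s + ln h) = g h := by
  cases h with
  | zero => exact hD
  | succ h => exact ⟨hD.1, hD.2.1⟩

lemma Dg_ps {m : ℕ} {g v : ℕ → ℕ} (hD : Dg m 0 g v) (i : ℕ) (hi : i ≤ m) (k : ℕ)
    (hk : k < 2 ^ (i + 1)) : v (ps m i k) = g (m - i) := by
  have hk2 : k / 2 < 2 ^ i := by rw [pow_succ] at hk; omega
  have h1 := Dg_values (Dg_node hD i hi (k / 2) hk2)
  rcases Nat.even_or_odd' k with ⟨j, rfl | rfl⟩
  · rw [Nat.mul_div_cancel_left _ (by norm_num)] at h1
    rw [ps_even]; exact h1.1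
  · have e1 : (2 * j + 1) / 2 = j := by omega
    rw [e1] at h1
    rw [ps_odd]; exact h1.2

lemma st_lt (m i : ℕ) (hi : i ≤ m) (j : ℕ) (hj : j + 1 < 2 ^ i) :
    st m i j + ln (m - i) < st m i (j + 1) := by
  induction i generalizing j with
  | zero => simp at hj
  | succ i ih =>
    have hln := ln_sub hi
    rcases Nat.even_or_odd' j with ⟨j', rfl | rfl⟩
    · rw [st_left, st_right]; omega
    · have e : 2 * j' + 1 + 1 = 2 * (j' + 1) := by ring
      rw [e, st_left, st_right]
      have := ih (by omega) j' (by rw [pow_succ] at hj; omega)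
      omega

lemma ps_lt (m i : ℕ) (hi : i ≤ m) (k : ℕ) (hk : k + 1 < 2 ^ (i + 1)) :
    ps m i k < ps m i (k + 1) := by
  rcases Nat.even_or_odd' k with ⟨j, rfl | rfl⟩
  · rw [ps_even, ps_odd]
    have := ln_pos (m - i)
    omega
  · have e : 2 * j + 1 + 1 = 2 * (j + 1) := by ring
    rw [e, ps_odd, ps_even]
    exact st_lt m i hi j (by rw [pow_succ] at hk; omega)

lemma ps_mono (m i : ℕ) (hi : i ≤ m) {k k' : ℕ} (hkk : k < k') (hk : k' < 2 ^ (i + 1)) :
    ps m i k < ps m i k' := by
  induction k' with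
  | zero => omega
  | succ k' ih =>
    have h1 := ps_lt m i hi k' hk
    by_cases h : k = k'
    · subst h; exact h1
    · exact (ih (by omega) (by omega)).trans h1

lemma ps_inj (m i : ℕ) (hi : i ≤ m) {k k' : ℕ} (hk : k < 2 ^ (i + 1)) (hk' : k' < 2 ^ (i + 1))
    (h : ps m i k = ps m i k') : k = k' := by
  rcases Nat.lt_trichotomy k k' with h1 | h1 | h1
  · have := ps_mono m i hi h1 hk'; omega
  · exact h1
  · have := ps_mono m i hi h1 hk; omega

lemma st_range (m i : ℕ) (hi : i ≤ m) (j : ℕ) (hj : j < 2 ^ i) :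
    st m i j + ln (m - i) ≤ ln m := by
  induction i generalizing j with
  | zero => simp [st]
  | succ i ih =>
    have hln := ln_sub hi
    rcases Nat.even_or_odd' j with ⟨j', rfl | rfl⟩
    · rw [st_left]
      have := ih (by omega) j' (by rw [pow_succ] at hj; omega)
      omega
    · rw [st_right]
      have := ih (by omega) j' (by rw [pow_succ] at hj; omega)
      omega

lemma ps_range (m i : ℕ) (hi : i ≤ m) (k : ℕ) (hk : k < 2 ^ (i + 1)) : ps m i k ≤ ln m := by
  have h1 := st_range m i hi (k / 2) (by rw [pow_succ] at hk; omega)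
  rcases Nat.even_or_odd' k with ⟨j, rfl | rfl⟩
  · rw [Nat.mul_div_cancel_left _ (by norm_num)] at h1
    rw [ps_even]; omega
  · have e1 : (2 * j + 1) / 2 = j := by omega
    rw [e1] at h1
    rw [ps_odd]; exact h1

lemma ps_surj_aux (m : ℕ) (h : ℕ) : ∀ i j, i + h = m → j < 2 ^ i → ∀ x, st m i j ≤ x →
    x ≤ st m i j + ln h → ∃ i' k, i' ≤ m ∧ k < 2 ^ (i' + 1) ∧ ps m i' k = x := by
  induction h with
  | zero =>
    intro i j hi hj x hx hx'
    have e0 : ln 0 = 1 := rfl
    have e1 : m - i = 0 := by omega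
    by_cases hxx : x = st m i j
    · exact ⟨i, 2 * j, by omega, by rw [pow_succ]; omega, by rw [ps_even, hxx]⟩
    · refine ⟨i, 2 * j + 1, by omega, by rw [pow_succ]; omega, ?_⟩
      rw [ps_odd, e1]; omega
  | succ h ih =>
    intro i j hi hj x hx hx'
    have e0 : ln (h + 1) = 2 * ln h + 3 := rfl
    have e1 : m - i = h + 1 := by omega
    have e2 : m - (i + 1) = h := by omega
    by_cases hxx : x = st m i j
    · exact ⟨i, 2 * j, by omega, by rw [pow_succ]; omega, by rw [ps_even, hxx]⟩
    by_cases hxx2 : x = st m i j + ln (h + 1)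
    · refine ⟨i, 2 * j + 1, by omega, by rw [pow_succ]; omega, ?_⟩
      rw [ps_odd, e1]; omega
    by_cases hxx3 : x ≤ st m i j + 1 + ln h
    · refine ih (i + 1) (2 * j) (by omega) (by rw [pow_succ]; omega) x ?_ ?_
      · rw [st_left]; omega
      · rw [st_left]; exact hxx3
    · refine ih (i + 1) (2 * j + 1) (by omega) (by rw [pow_succ]; omega) x ?_ ?_
      · rw [st_right, e2]; omega
      · rw [st_right, e2]; omega

lemma ps_surj (m x : ℕ) (hx : x ≤ ln m) : ∃ i k, i ≤ m ∧ k < 2 ^ (i + 1) ∧ ps m i k = x :=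
  ps_surj_aux m m 0 0 (by omega) (by norm_num) x (Nat.zero_le _) (by simp [st]; exact hx)

lemma ND_nodes_aux (m h : ℕ) : ∀ i j, i + h = m → j < 2 ^ i → ∀ p ∈ ND h (st m i j),
    ∃ i' j', i' ≤ m ∧ j' < 2 ^ i' ∧ p = (st m i' j', st m i' j' + ln (m - i')) := by
  induction h with
  | zero =>
    intro i j hi hj p hp
    simp only [ND, List.mem_singleton] at hp
    refine ⟨i, j, by omega, hj, ?_⟩
    have : m - i = 0 := by omega
    rw [hp, this]; rfl
  | succ h ih =>
    intro i j hi hj p hp
    simp only [ND, List.mem_cons, List.mem_append] at hp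
    have e2 : m - (i + 1) = h := by omega
    rcases hp with rfl | hp | hp
    · refine ⟨i, j, by omega, hj, ?_⟩
      have : m - i = h + 1 := by omega
      rw [this]
    · rw [← st_left] at hp
      exact ih (i + 1) (2 * j) (by omega) (by rw [pow_succ]; omega) p hp
    · have e3 : st m i j + ln h + 2 = st m (i + 1) (2 * j + 1) := by rw [st_right, e2]
      rw [e3] at hp
      exact ih (i + 1) (2 * j + 1) (by omega) (by rw [pow_succ]; omega) p hp

lemma ND_nodes (m : ℕ) (p : ℕ × ℕ) (hp : p ∈ ND m 0) :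
    ∃ i j, i ≤ m ∧ j < 2 ^ i ∧ p = (st m i j, st m i j + ln (m - i)) :=
  ND_nodes_aux m m 0 0 (by omega) (by norm_num) p hp

/-- left spine -/
lemma st_spine (m i j t : ℕ) : st m (i + t) (j * 2 ^ t) = st m i j + t := by
  induction t with
  | zero => simp
  | succ t ih =>
    have e : j * 2 ^ (t + 1) = 2 * (j * 2 ^ t) := by rw [pow_succ]; ring
    rw [e, ← add_assoc, st_left, ih]
    omega

/-- right spine -/
lemma close_spine (m i j t : ℕ) (h : i + t ≤ m) :
    st m (i + t) ((j + 1) * 2 ^ t - 1) + ln (m - (i + t)) + t = st m i j + ln (m - i) := by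
  induction t with
  | zero => simp
  | succ t ih =>
    have hpos : 1 ≤ (j + 1) * 2 ^ t := Nat.one_le_iff_ne_zero.2 (by positivity)
    have e : (j + 1) * 2 ^ (t + 1) - 1 = 2 * ((j + 1) * 2 ^ t - 1) + 1 := by
      rw [pow_succ]
      have : (j + 1) * (2 ^ t * 2) = 2 * ((j + 1) * 2 ^ t) := by ring
      omega
    have h1 := ih (by omega)
    have h2 := ln_sub (m := m) (i := i + t) (by omega)
    have e2 : i + (t + 1) = (i + t) + 1 := by omega
    rw [e, e2, st_right]
    omega

lemma ln_ge (h : ℕ) : h + 1 ≤ ln h := by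
  induction h with
  | zero => exact le_rfl
  | succ h ih => simp only [ln]; omega

lemma Pc_of_ps_aux (m : ℕ) (v : ℕ → ℕ)
    (hv : ∀ i, i ≤ m → ∀ k, k % 2 = 1 → k + 1 < 2 ^ (i + 1) → v (ps m i k) = v (ps m i (k + 1)))
    (h : ℕ) : ∀ i j, i + h = m → j < 2 ^ i → Pc h (st m i j) v := by
  induction h with
  | zero => intro i j _ _; trivial
  | succ h ih =>
    intro i j hi hj
    have e2 : m - (i + 1) = h := by omega
    refine ⟨?_, ?_, ?_⟩
    · intro t ht
      have hpos : 1 ≤ (2 * j + 1) * 2 ^ t := Nat.one_le_iff_ne_zero.2 (by positivity)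
      have h1 := st_spine m (i + 1) (2 * j + 1) t
      have h2 := close_spine m (i + 1) (2 * j) t (by omega)
      rw [st_right, e2] at h1
      rw [st_left, e2] at h2
      have h3 := hv (i + 1 + t) (by omega) (2 * ((2 * j + 1) * 2 ^ t - 1) + 1) (by omega) (by
        have e3 : 2 * ((2 * j + 1) * 2 ^ t - 1) + 1 + 1 = (2 * j + 1) * 2 ^ (t + 1) := by
          rw [pow_succ]
          have : (2 * j + 1) * (2 ^ t * 2) = 2 * ((2 * j + 1) * 2 ^ t) := by ring
          omega
        rw [e3]
        have e4 : i + 1 + t + 1 = (i + 1) + (t + 1) := by omega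
        rw [e4, pow_add 2 (i + 1)]
        apply Nat.mul_lt_mul_of_pos_right _ (by positivity)
        rw [pow_succ]; omega)
      have e5 : 2 * ((2 * j + 1) * 2 ^ t - 1) + 1 + 1 = 2 * ((2 * j + 1) * 2 ^ t) := by omega
      rw [e5, ps_odd, ps_even] at h3
      have e6 : st m i j + 1 + ln h - t =
          st m (i + 1 + t) ((2 * j + 1) * 2 ^ t - 1) + ln (m - (i + 1 + t)) := by omega
      have e7 : st m i j + ln h + 2 + t = st m (i + 1 + t) ((2 * j + 1) * 2 ^ t) := by omega
      rw [e6, e7]
      exact h3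
    · rw [← st_left]
      exact ih (i + 1) (2 * j) (by omega) (by rw [pow_succ]; omega)
    · have e3 : st m i j + ln h + 2 = st m (i + 1) (2 * j + 1) := by rw [st_right, e2]
      rw [e3]
      exact ih (i + 1) (2 * j + 1) (by omega) (by rw [pow_succ]; omega)

lemma Pc_of_ps {m : ℕ} {v : ℕ → ℕ}
    (hv : ∀ i, i ≤ m → ∀ k, k % 2 = 1 → k + 1 < 2 ^ (i + 1) →
      v (ps m i k) = v (ps m i (k + 1))) : Pc m 0 v :=
  Pc_of_ps_aux m v hv m 0 0 (by omega) (by norm_num)

lemma ln_eq (m : ℕ) : ln m + 1 = 2 * (2 ^ (m + 1) - 1) := by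
  induction m with
  | zero => rfl
  | succ m ih =>
    simp only [ln]
    have : 1 ≤ 2 ^ (m + 1) := Nat.one_le_two_pow
    rw [pow_succ 2 (m + 1)]
    omega

/-! ### a combinatorial lemma on noncrossing involutions -/

lemma comb {n : ℕ} (hn : n % 2 = 0) {μ : ℕ → ℕ} (h1 : ∀ k, k < n → μ k < n)
    (h2 : ∀ k, k < n → μ k ≠ k) (h3 : ∀ k, k < n → μ (μ k) = k)
    (h4 : ∀ k1 k2, k1 < n → k2 < n → k1 < k2 → k2 < μ k1 → μ k1 < μ k2 → False)
    (h5 : ∀ l r, l ≤ r → r < n → (∀ k, l ≤ k → k ≤ r → l ≤ μ k ∧ μ k ≤ r) →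
      (∀ k, k % 2 = 1 → k + 1 < n → (l ≤ k ∧ k ≤ r ↔ l ≤ k + 1 ∧ k + 1 ≤ r)) →
      l = 0 ∧ r = n - 1) :
    ∀ j, 2 * j + 1 < n → μ (2 * j) = 2 * j + 1 := by
  intro j
  induction j using Nat.strong_induction_on with
  | _ j IH =>
    intro hj
    set k := 2 * j with hk
    have hlow : ∀ t, t < k → μ t < k := by
      intro t ht
      rcases Nat.even_or_odd' t with ⟨j', rfl | rfl⟩
      · rw [IH j' (by omega) (by omega)]; omega
      · have := h3 (2 * j') (by omega)
        rw [IH j' (by omega) (by omega)] at this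
        rw [this]; omega
    have hkn : k < n := by omega
    have hgt : k < μ k := by
      have h6 := h2 k hkn
      by_contra hcon
      have h7 : μ k < k := by omega
      have h8 := hlow (μ k) h7
      rw [h3 k hkn] at h8
      omega
    have hin : ∀ t, k < t → t < μ k → k < μ t ∧ μ t < μ k := by
      intro t ht ht'
      have htn : t < n := ht'.trans (h1 k hkn)
      have h6 : μ t ≠ k := by
        intro h
        have := h3 t htn
        rw [h] at this
        omega
      have h7 : μ t ≠ μ k := by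
        intro h
        have e1 := h3 t htn
        have e2 := h3 k hkn
        rw [h, e2] at e1
        omega
      have h8 : ¬ μ t < k := by
        intro h
        have := hlow (μ t) h
        rw [h3 t htn] at this
        omega
      have h9 : ¬ μ k < μ t := fun h => h4 k t hkn htn ht ht' h
      omega
    rcases Nat.even_or_odd' (μ k) with ⟨j', hj' | hj'⟩
    · exfalso
      have := h5 0 (μ k) (Nat.zero_le _) (h1 k hkn) (by
        intro t _ ht
        refine ⟨Nat.zero_le _, ?_⟩
        by_cases ht1 : t < k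
        · have := hlow t ht1; omega
        by_cases ht2 : t = k
        · rw [ht2]
        by_cases ht3 : t = μ k
        · rw [ht3, h3 k hkn]; omega
        · have := hin t (by omega) (by omega); omega) (by
        intro t ht1 ht2
        omega)
      have := h1 k hkn
      omega
    · by_contra hne
      have := h5 (k + 1) (μ k - 1) (by omega) (by have := h1 k hkn; omega) (by
        intro t ht ht'
        have := hin t (by omega) (by omega)
        omega) (by
        intro t ht1 ht2
        omega)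
      omega

end Pool.Agent.Lib.MP835627
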