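import Pool.Agent.Lib.MP_835627_lc.Basic
import Pool.Agent.Lib.MP_835627_lc.Kruskal

/-!
Derivation forests annotated with the states of the linear automaton of a skeleton
`b* sp₀ b* sp₁ ... b*`, their vectors, and pumping along embeddings.
-/

set_option autoImplicit false

namespace Pool.Agent.Lib.MP835627

open Al Fr

variable (G : ContextFreeGrammar Al) (sp : List Al)

/-- labels of annotated forests: nonterminal, start slot, end slot -/
abbrev Lb : Type := G.NT × ℕ × ℕ

abbrev FF : Type := Fr Al (Lb G)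

variable {G}

def roots : FF G → List (Symbol Al G.NT)
  | nil => []
  | term t r => Symbol.terminal t :: roots r
  | node q _ r => Symbol.nonterminal q.1 :: roots r

def VF : ℕ → FF G → ℕ → Prop
  | s, nil, s' => s = s'
  | s, term t r, s' => if t = b then VF s r s' else sp[s]? = some t ∧ VF (s + 1) r s'
  | s, node q ch r, s' => q.2.1 = s ∧ (⟨q.1, roots ch⟩ : ContextFreeRule Al G.NT) ∈ G.rules ∧
      VF s ch q.2.2 ∧ VF q.2.2 r s'

def vec : ℕ → FF G → (ℕ → ℕ)
  | _, nil => 0
  | s, term t r => if t = b then Pi.single s 1 + vec s r else vec (s + 1) r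
  | s, node q ch r => vec s ch + vec q.2.2 r

/-- the automaton reads the word `w` from slot `s` to slot `s'` with counting vector `v`. -/
def Rd : ℕ → List Al → ℕ → (ℕ → ℕ) → Prop
  | s, [], s', v => s = s' ∧ v = 0
  | s, x :: w, s', v => if x = b then ∃ v', v = Pi.single s 1 + v' ∧ Rd s w s' v'
      else sp[s]? = some x ∧ Rd (s + 1) w s' v

variable {sp}

lemma roots_term (t : Al) (r : FF G) : roots (term t r : FF G) = Symbol.terminal t :: roots r := rfl
lemma roots_node (q : Lb G) (ch r : FF G) :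
    roots (node q ch r : FF G) = Symbol.nonterminal q.1 :: roots r := rfl
lemma vec_term (s : ℕ) (t : Al) (r : FF G) : vec s (term t r : FF G) =
    if t = b then Pi.single s 1 + vec s r else vec (s + 1) r := rfl
lemma vec_node (s : ℕ) (q : Lb G) (ch r : FF G) : vec s (node q ch r : FF G) =
    vec s ch + vec q.2.2 r := rfl
lemma VF_term (s : ℕ) (t : Al) (r : FF G) (s' : ℕ) : VF sp s (term t r : FF G) s' =
    if t = b then VF sp s r s' else (sp[s]? = some t ∧ VF sp (s + 1) r s') := rfl

lemma Rd.append {w1 w2 : List Al} {s s1 s' : ℕ} {v1 v2 : ℕ → ℕ} (h1 : Rd sp s w1 s1 v1)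
    (h2 : Rd sp s1 w2 s' v2) : Rd sp s (w1 ++ w2) s' (v1 + v2) := by
  induction w1 generalizing s v1 with
  | nil =>
    obtain ⟨rfl, rfl⟩ := h1
    simpa using h2
  | cons x w ih =>
    rw [List.cons_append]
    unfold Rd at h1 ⊢
    split_ifs at h1 ⊢ with hx
    · obtain ⟨v', rfl, h3⟩ := h1
      exact ⟨v' + v2, by rw [add_assoc], ih h3⟩
    · exact ⟨h1.1, ih h1.2⟩

variable (G sp)

/-- generation of vectors -/
def Gn (s : ℕ) (l : List (Symbol Al G.NT)) (s' : ℕ) (v : ℕ → ℕ) : Prop :=
  ∃ w : List Al, G.Derives l (w.map Symbol.terminal) ∧ Rd sp s w s' v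

variable {G sp}

lemma Gn.nil (s : ℕ) : Gn G sp s [] s 0 :=
  ⟨[], ContextFreeGrammar.Derives.refl _, rfl, rfl⟩

lemma derives_append {l1 l2 m1 m2 : List (Symbol Al G.NT)} (h1 : G.Derives l1 m1)
    (h2 : G.Derives l2 m2) : G.Derives (l1 ++ l2) (m1 ++ m2) :=
  (h1.append_right l2).trans (h2.append_left m1)

lemma Gn.append {l1 l2 : List (Symbol Al G.NT)} {s s1 s' : ℕ} {v1 v2 : ℕ → ℕ}
    (h1 : Gn G sp s l1 s1 v1) (h2 : Gn G sp s1 l2 s' v2) :
    Gn G sp s (l1 ++ l2) s' (v1 + v2) := by
  obtain ⟨w1, d1, r1⟩ := h1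
  obtain ⟨w2, d2, r2⟩ := h2
  refine ⟨w1 ++ w2, ?_, r1.append r2⟩
  rw [List.map_append]
  exact derives_append d1 d2

lemma Gn.termb (s : ℕ) : Gn G sp s [Symbol.terminal b] s (Pi.single s 1) := by
  refine ⟨[b], ContextFreeGrammar.Derives.refl _, ?_⟩
  unfold Rd
  rw [if_pos rfl]
  exact ⟨0, by simp, rfl, rfl⟩

lemma Gn.term {s : ℕ} {t : Al} (ht : t ≠ b) (h : sp[s]? = some t) :
    Gn G sp s [Symbol.terminal t] (s + 1) 0 := by
  refine ⟨[t], ContextFreeGrammar.Derives.refl _, ?_⟩
  unfold Rd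
  rw [if_neg ht]
  exact ⟨h, rfl, rfl⟩

lemma Gn.nt {A : G.NT} {l : List (Symbol Al G.NT)} {s s' : ℕ} {v : ℕ → ℕ}
    (hr : (⟨A, l⟩ : ContextFreeRule Al G.NT) ∈ G.rules) (h : Gn G sp s l s' v) :
    Gn G sp s [Symbol.nonterminal A] s' v := by
  obtain ⟨w, d, r⟩ := h
  refine ⟨w, ?_, r⟩
  have : G.Produces [Symbol.nonterminal A] l := ⟨_, hr, ContextFreeRule.Rewrites.input_output⟩
  exact this.trans_derives d

lemma VF.le {f : FF G} {s s' : ℕ} (h : VF sp s f s') : s ≤ s' := by
  induction f generalizing s s' with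
  | nil => exact le_of_eq h
  | term t r ih =>
    rw [VF_term] at h
    split_ifs at h with ht
    · exact ih h
    · have := ih h.2; omega
  | node q ch r ih1 ih2 =>
    obtain ⟨_, _, h3, h4⟩ := h
    exact (ih1 h3).trans (ih2 h4)

lemma VF.gn {f : FF G} {s s' : ℕ} (h : VF sp s f s') : Gn G sp s (roots f) s' (vec s f) := by
  induction f generalizing s s' with
  | nil =>
    have : s = s' := h
    subst this
    exact Gn.nil s
  | term t r ih =>
    rw [VF_term] at h
    rw [roots_term, vec_term]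
    split_ifs at h ⊢ with ht
    · subst ht
      exact (Gn.termb s).append (ih h)
    · have := (Gn.term (G := G) ht h.1).append (ih h.2)
      simpa using this
  | node q ch r ih1 ih2 =>
    obtain ⟨_, h2, h3, h4⟩ := h
    exact (Gn.nt h2 (ih1 h3)).append (ih2 h4)

lemma VF.supp {f : FF G} {s s' : ℕ} (h : VF sp s f s') {i : ℕ} (hi : vec s f i ≠ 0) :
    s ≤ i ∧ i ≤ s' := by
  induction f generalizing s s' with
  | nil => simp [vec] at hi
  | term t r ih =>
    rw [VF_term] at h
    rw [vec_term] at hi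
    split_ifs at h hi with ht
    · have hle := h.le
      by_cases his : i = s
      · subst his; exact ⟨le_rfl, hle⟩
      · have : vec s r i ≠ 0 := by
          simpa [Pi.single_apply, his] using hi
        exact ih h this
    · have := ih h.2 hi
      omega
  | node q ch r ih1 ih2 =>
    obtain ⟨_, _, h3, h4⟩ := h
    have h5 := h3.le
    have h6 := h4.le
    simp only [vec, Pi.add_apply] at hi
    by_cases h7 : vec s ch i = 0
    · rw [h7, zero_add] at hi
      have := ih2 h4 hi
      omega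
    · have := ih1 h3 h7
      omega

/-- context extraction -/
lemma VF.ctx {g : FF G} {s s' : ℕ} (h : VF sp s g s') {B : G.NT} {x y : ℕ} {c : FF G}
    (hs : Sub (B, x, y) c g) :
    VF sp x c y ∧ s ≤ x ∧ y ≤ s' ∧
    ∃ γ : ℕ → ℕ, vec s g = vec x c + γ ∧
      (∀ i, γ i ≠ 0 → (s ≤ i ∧ i ≤ x) ∨ (y ≤ i ∧ i ≤ s')) ∧
      ∀ u, Gn G sp x [Symbol.nonterminal B] y u → Gn G sp s (roots g) s' (u + γ) := by
  induction g generalizing s s' with
  | nil => exact hs.elim
  | term t r ih =>
    rw [VF_term] at h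
    rw [roots_term, vec_term]
    split_ifs at h ⊢ with ht
    · obtain ⟨h1, h2, h3, γ, h4, h5, h6⟩ := ih h hs
      refine ⟨h1, h2, h3, Pi.single s 1 + γ, ?_, ?_, ?_⟩
      · rw [h4]; abel
      · intro i hi
        by_cases his : i = s
        · subst his; exact Or.inl ⟨le_rfl, h2⟩
        · exact h5 i (by simpa [Pi.single_apply, his] using hi)
      · intro u hu
        have := (Gn.termb (G := G) (sp := sp) s).append (h6 u hu)
        rw [← ht] at this
        have e : u + (Pi.single s 1 + γ) = Pi.single s 1 + (u + γ) := by abel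
        rw [e]
        exact this
    · obtain ⟨h1, h2, h3, γ, h4, h5, h6⟩ := ih h.2 hs
      refine ⟨h1, by omega, h3, γ, h4, ?_, ?_⟩
      · intro i hi
        have := h5 i hi
        omega
      · intro u hu
        have := (Gn.term (G := G) ht h.1).append (h6 u hu)
        simpa using this
  | node q ch r ih1 ih2 =>
    obtain ⟨hq, h2, h3, h4⟩ := h
    have h3le := h3.le
    have h4le := h4.le
    rcases hs with ⟨rfl, rfl⟩ | hs | hs
    · simp only at hq h2 h3 h4 h3le h4le
      subst hq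
      refine ⟨h3, le_rfl, h4le, vec y r, rfl, ?_, ?_⟩
      · intro i hi
        exact Or.inr (h4.supp hi)
      · intro u hu
        exact hu.append h4.gn
    · obtain ⟨h5, h6, h7, γ, h8, h9, h10⟩ := ih1 h3 hs
      refine ⟨h5, h6, by omega, γ + vec q.2.2 r, ?_, ?_, ?_⟩
      · rw [vec_node, h8]; abel
      · intro i hi
        by_cases hγ : γ i = 0
        · have : vec q.2.2 r i ≠ 0 := by simpa [hγ] using hi
          have := h4.supp this
          omega
        · have := h9 i hγ
          omega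
      · intro u hu
        have := (Gn.nt h2 (h10 u hu)).append h4.gn
        rw [← add_assoc]
        exact this
    · obtain ⟨h5, h6, h7, γ, h8, h9, h10⟩ := ih2 h4 hs
      refine ⟨h5, by omega, h7, vec s ch + γ, ?_, ?_, ?_⟩
      · rw [vec_node, h8]; abel
      · intro i hi
        by_cases hγ : γ i = 0
        · have : vec s ch i ≠ 0 := by simpa [hγ] using hi
          have := h3.supp this
          omega
        · have := h9 i hγ
          omega
      · intro u hu
        have := (Gn.nt h2 h3.gn).append (h10 u hu)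
        have e : u + (vec s ch + γ) = vec s ch + (u + γ) := by abel
        rw [e]
        exact this

/-- pumps: start slot, end slot, vector -/
abbrev Pp : Type := ℕ × ℕ × (ℕ → ℕ)

def Cl (Ps : List Pp) : AddSubmonoid (ℕ → ℕ) :=
  AddSubmonoid.closure {π | ∃ p ∈ Ps, p.2.2 = π}

lemma mem_Cl_append {Ps1 Ps2 : List Pp} {u : ℕ → ℕ} (hu : u ∈ Cl (Ps1 ++ Ps2)) :
    ∃ u1 ∈ Cl Ps1, ∃ u2 ∈ Cl Ps2, u1 + u2 = u := by
  have : Cl (Ps1 ++ Ps2) = Cl Ps1 ⊔ Cl Ps2 := by
    unfold Cl
    rw [← AddSubmonoid.closure_union]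
    congr 1
    ext π
    simp [or_and_right, exists_or]
  rw [this] at hu
  exact AddSubmonoid.mem_sup.1 hu

lemma mem_Cl_cons {p : Pp} {Ps : List Pp} {u : ℕ → ℕ} (hu : u ∈ Cl (p :: Ps)) :
    ∃ k : ℕ, ∃ u2 ∈ Cl Ps, k • p.2.2 + u2 = u := by
  have : p :: Ps = [p] ++ Ps := rfl
  rw [this] at hu
  obtain ⟨u1, h1, u2, h2, h3⟩ := mem_Cl_append hu
  have h4 : u1 ∈ AddSubmonoid.closure ({p.2.2} : Set (ℕ → ℕ)) := by
    unfold Cl at h1
    convert h1 using 2
    ext π
    simp [eq_comm]
  obtain ⟨k, hk⟩ := AddSubmonoid.mem_closure_singleton.1 h4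
  exact ⟨k, u2, h2, by rw [hk]; exact h3⟩

/-- Embeddings give simple pumps that can all be iterated independently. -/
theorem pump_of_em {f f' : FF G} (e : Em f f') {s s' : ℕ} (h : VF sp s f s')
    (h' : VF sp s f' s') :
    ∃ Ps : List Pp,
      (∀ p ∈ Ps, (∃ A c, Sub (A, p.1, p.2.1) c f) ∧ (∀ i, p.2.2 i ≠ 0 → i = p.1 ∨ i = p.2.1)) ∧
      vec s f' = vec s f + (Ps.map (fun p => p.2.2)).sum ∧
      ∀ u ∈ Cl Ps, Gn G sp s (roots f) s' (vec s f + u) := by
  induction e generalizing s s' with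
  | nil =>
    refine ⟨[], by simp, by simp, ?_⟩
    intro u hu
    have : u = 0 := by
      have h0 : Cl ([] : List Pp) = ⊥ := by
        unfold Cl
        simp
      rw [h0] at hu
      exact AddSubmonoid.mem_bot.1 hu
    subst this
    have h2 : s = s' := h
    subst h2
    rw [add_zero]
    exact Gn.nil (G := G) (sp := sp) s
  | @term t r r' e ih =>
    rw [VF_term] at h h'
    rw [roots_term, vec_term, vec_term]
    split_ifs at h h' ⊢ with ht
    · obtain ⟨Ps, h1, h2, h3⟩ := ih h h'
      refine ⟨Ps, h1, by rw [h2]; abel, ?_⟩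
      intro u hu
      have := (Gn.termb (G := G) (sp := sp) s).append (h3 u hu)
      rw [← ht] at this
      rw [add_assoc]
      exact this
    · obtain ⟨Ps, h1, h2, h3⟩ := ih h.2 h'.2
      refine ⟨Ps, h1, h2, ?_⟩
      intro u hu
      have := (Gn.term (G := G) ht h.1).append (h3 u hu)
      simpa using this
  | @node q ch c2 ch' r r' e1 s1 e3 ih1 ih3 =>
    obtain ⟨B, x, t⟩ := q
    obtain ⟨hq, hr, hc, hrest⟩ := h
    obtain ⟨_, hr', hc', hrest'⟩ := h'
    simp only at hq hr hc hrest hr' hc' hrest'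
    subst hq
    have hg : VF sp x (node (B, x, t) ch' nil : FF G) t := ⟨rfl, hr', hc', rfl⟩
    obtain ⟨hc2, _, _, γ, hγ1, hγ2, hγ3⟩ := hg.ctx s1
    obtain ⟨Ps1, a1, a2, a3⟩ := ih1 hc hc2
    obtain ⟨Ps2, b1, b2, b3⟩ := ih3 hrest hrest'
    refine ⟨(x, t, γ) :: (Ps1 ++ Ps2), ?_, ?_, ?_⟩
    · intro p hp
      rcases List.mem_cons.1 hp with rfl | hp
      · refine ⟨⟨B, ch, Sub.self _ _ _⟩, ?_⟩
        intro i hi
        have := hγ2 i hi
        simp only
        omega
      rcases List.mem_append.1 hp with hp | hp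
      · obtain ⟨⟨A, c, h1⟩, h2⟩ := a1 p hp
        exact ⟨⟨A, c, Or.inr (Or.inl h1)⟩, h2⟩
      · obtain ⟨⟨A, c, h1⟩, h2⟩ := b1 p hp
        exact ⟨⟨A, c, Or.inr (Or.inr h1)⟩, h2⟩
    · have e4 : vec x ch' = vec x c2 + γ := by
        have : vec x (node (B, x, t) ch' nil : FF G) = vec x ch' := by
          simp [vec]
        rw [← this, hγ1]
      simp only [vec, List.map_cons, List.map_append, List.sum_cons, List.sum_append]
      rw [e4, a2, b2]
      abel
    · intro u hu
      obtain ⟨k, u', hu', rfl⟩ := mem_Cl_cons hu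
      obtain ⟨u1, hu1, u2, hu2, rfl⟩ := mem_Cl_append hu'
      have g1 : Gn G sp x [Symbol.nonterminal B] t (vec x ch + u1) := Gn.nt hr (a3 u1 hu1)
      have g2 : ∀ k : ℕ, Gn G sp x [Symbol.nonterminal B] t (vec x ch + u1 + k • γ) := by
        intro k
        induction k with
        | zero => simpa using g1
        | succ k ih =>
          have := hγ3 _ ih
          have e5 : vec x ch + u1 + (k + 1) • γ = vec x ch + u1 + k • γ + γ := by
            rw [add_smul, one_smul]; abel
          rw [e5]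
          exact this
      have g3 := (g2 k).append (b3 u2 hu2)
      simp only [roots, vec]
      have e6 : vec x ch + vec t r + (k • γ + (u1 + u2)) =
          vec x ch + u1 + k • γ + (vec t r + u2) := by abel
      rw [e6]
      exact g3

/-- intervals of two nodes do not cross -/
lemma VF.noncross {f : FF G} {s s' : ℕ} (h : VF sp s f s') {A A' : G.NT} {x y x' y' : ℕ}
    {c c' : FF G} (h1 : Sub (A, x, y) c f) (h2 : Sub (A', x', y') c' f) :
    ¬ (x < x' ∧ x' < y ∧ y < y') := by
  induction f generalizing s s' with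
  | nil => exact h1.elim
  | term t r ih =>
    rw [VF_term] at h
    split_ifs at h with ht
    · exact ih h h1 h2
    · exact ih h.2 h1 h2
  | node q ch r ih1 ih2 =>
    obtain ⟨hq, _, h3, h4⟩ := h
    rcases h1 with ⟨h1, _⟩ | h1 | h1
    · rcases h2 with ⟨h2, _⟩ | h2 | h2
      · rw [← h1] at h2
        simp only [Prod.mk.injEq] at h2
        omega
      · have := h3.ctx h2
        have h1' : q.2.1 = x ∧ q.2.2 = y := by rw [← h1]; exact ⟨rfl, rfl⟩
        omega
      · have := h4.ctx h2
        have h1' : q.2.1 = x ∧ q.2.2 = y := by rw [← h1]; exact ⟨rfl, rfl⟩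
        omega
    · rcases h2 with ⟨h2, _⟩ | h2 | h2
      · have := h3.ctx h1
        have h2' : q.2.1 = x' ∧ q.2.2 = y' := by rw [← h2]; exact ⟨rfl, rfl⟩
        omega
      · exact ih1 h3 h1 h2
      · have k1 := h3.ctx h1
        have k2 := h4.ctx h2
        omega
    · rcases h2 with ⟨h2, _⟩ | h2 | h2
      · have := h4.ctx h1
        have h2' : q.2.1 = x' ∧ q.2.2 = y' := by rw [← h2]; exact ⟨rfl, rfl⟩
        have h5 := h3.le
        omega
      · have k1 := h4.ctx h1
        have k2 := h3.ctx h2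
        omega
      · exact ih2 h4 h1 h2

end Pool.Agent.Lib.MP835627
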