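import Pool.Agent.Lib.MP_835627_lc.Strahler

/-!
The words of perfect binary shape with arbitrary runs of `b`.
-/

set_option autoImplicit false

namespace Pool.Agent.Lib.MP835627

open Al

def seps : ℕ → List Al
  | 0 => [c]
  | h + 1 => a :: (seps h ++ d :: (seps h ++ [a]))

lemma seps_length (h : ℕ) : (seps h).length = ln h := by
  induction h with
  | zero => rfl
  | succ h ih => simp only [seps, ln, List.length_cons, List.length_append, ih,
      List.length_nil]; omega

lemma seps_ne_b (h : ℕ) : ∀ x ∈ seps h, x ≠ b := by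
  induction h with
  | zero => intro x hx; simp [seps] at hx; subst hx; simp
  | succ h ih =>
    intro x hx
    simp only [seps, List.mem_cons, List.mem_append, List.not_mem_nil, or_false] at hx
    rcases hx with rfl | hx | rfl | hx | rfl
    · simp
    · exact ih x hx
    · simp
    · exact ih x hx
    · simp

/-- the word with separators `l` and runs `v s, v (s+1), ...` -/
def aw : ℕ → List Al → (ℕ → ℕ) → List Al
  | s, [], v => List.replicate (v s) b
  | s, x :: l, v => List.replicate (v s) b ++ x :: aw (s + 1) l v

lemma aw_append (s : ℕ) (l1 : List Al) (x : Al) (l2 : List Al) (v : ℕ → ℕ) :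
    aw s (l1 ++ x :: l2) v = aw s l1 v ++ x :: aw (s + l1.length + 1) l2 v := by
  induction l1 generalizing s with
  | nil => rfl
  | cons y l1 ih =>
    simp only [List.cons_append, aw, ih, List.append_assoc, List.length_cons]
    have : s + 1 + l1.length + 1 = s + (l1.length + 1) + 1 := by omega
    rw [this]

lemma aw_seps_succ (s h : ℕ) (v : ℕ → ℕ) : aw s (seps (h + 1)) v =
    List.replicate (v s) b ++ a :: (aw (s + 1) (seps h) v ++
      d :: (aw (s + ln h + 2) (seps h) v ++ a :: List.replicate (v (s + ln (h + 1))) b)) := by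
  simp only [seps, aw]
  rw [aw_append, aw_append, seps_length]
  have e1 : s + 1 + ln h + 1 = s + ln h + 2 := by omega
  have e2 : s + ln h + 2 + ln h + 1 = s + ln (h + 1) := by simp only [ln]; omega
  rw [e1, e2]
  rfl

lemma replicate_b_inj {n n' : ℕ} {x x' : Al} {w w' : List Al} (hx : x ≠ b) (hx' : x' ≠ b)
    (h : List.replicate n b ++ x :: w = List.replicate n' b ++ x' :: w') :
    n = n' ∧ x = x' ∧ w = w' := by
  induction n generalizing n' with
  | zero =>
    cases n' with
    | zero => simpa using h
    | succ n' =>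
      simp only [List.replicate_zero, List.nil_append, List.replicate_succ, List.cons_append,
        List.cons.injEq] at h
      exact absurd h.1 hx
  | succ n ih =>
    cases n' with
    | zero =>
      simp only [List.replicate_zero, List.nil_append, List.replicate_succ, List.cons_append,
        List.cons.injEq] at h
      exact absurd h.1.symm hx'
    | succ n' =>
      simp only [List.replicate_succ, List.cons_append, List.cons.injEq, true_and] at h
      obtain ⟨h1, h2, h3⟩ := ih h
      exact ⟨by rw [h1], h2, h3⟩

lemma aw_inj {l : List Al} (hl : ∀ x ∈ l, x ≠ b) {s : ℕ} {v v' : ℕ → ℕ}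
    (h : aw s l v = aw s l v') : ∀ i, s ≤ i → i ≤ s + l.length → v i = v' i := by
  induction l generalizing s with
  | nil =>
    intro i h1 h2
    have : i = s := by simp at h2; omega
    subst this
    have := congrArg List.length h
    simpa [aw] using this
  | cons x l ih =>
    intro i h1 h2
    simp only [aw] at h
    obtain ⟨h3, _, h4⟩ := replicate_b_inj (hl x (by simp)) (hl x (by simp)) h
    by_cases his : i = s
    · subst his; exact h3
    · exact ih (fun y hy => hl y (by simp [hy])) h4 i (by omega) (by simp at h2; omega)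

/-- diagonal vectors -/
def Dg : ℕ → ℕ → (ℕ → ℕ) → (ℕ → ℕ) → Prop
  | 0, s, g, v => v s = g 0 ∧ v (s + 1) = g 0
  | h + 1, s, g, v => v s = g (h + 1) ∧ v (s + ln (h + 1)) = g (h + 1) ∧
      Dg h (s + 1) g v ∧ Dg h (s + ln h + 2) g v

lemma Dg_congr {h s : ℕ} {g v v' : ℕ → ℕ} (hv : ∀ i, s ≤ i → i ≤ s + ln h → v i = v' i)
    (hD : Dg h s g v) : Dg h s g v' := by
  induction h generalizing s with
  | zero =>
    obtain ⟨h1, h2⟩ := hD
    have e1 := hv s le_rfl (by simp [ln])
    have e2 := hv (s + 1) (by omega) (by simp [ln])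
    exact ⟨by rw [← e1]; exact h1, by rw [← e2]; exact h2⟩
  | succ h ih =>
    obtain ⟨h1, h2, h3, h4⟩ := hD
    have e0 : ln (h + 1) = 2 * ln h + 3 := rfl
    refine ⟨?_, ?_, ?_, ?_⟩
    · rw [← hv s le_rfl (by omega)]; exact h1
    · rw [← hv (s + ln (h + 1)) (by omega) (by omega)]; exact h2
    · exact ih (fun i hi hi' => hv i (by omega) (by omega)) h3
    · exact ih (fun i hi hi' => hv i (by omega) (by omega)) h4

/-- an explicit diagonal vector -/
def dv : ℕ → ℕ → (ℕ → ℕ) → ℕ → ℕ
  | 0, _, g, _ => g 0
  | h + 1, s, g, i => if i = s ∨ i = s + ln (h + 1) then g (h + 1) else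
      if i < s + ln h + 2 then dv h (s + 1) g i else dv h (s + ln h + 2) g i

lemma Dg_dv (h s : ℕ) (g : ℕ → ℕ) : Dg h s g (dv h s g) := by
  induction h generalizing s with
  | zero => exact ⟨rfl, rfl⟩
  | succ h ih =>
    have e0 : ln (h + 1) = 2 * ln h + 3 := rfl
    refine ⟨?_, ?_, ?_, ?_⟩
    · simp [dv]
    · simp [dv]
    · refine Dg_congr ?_ (ih (s + 1))
      intro i h1 h2
      have h3 : ¬ (i = s ∨ i = s + ln (h + 1)) := by omega
      have h4 : i < s + ln h + 2 := by omega
      simp only [dv, h3, h4, if_false, if_true]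
    · refine Dg_congr ?_ (ih (s + ln h + 2))
      intro i h1 h2
      have h3 : ¬ (i = s ∨ i = s + ln (h + 1)) := by omega
      have h4 : ¬ i < s + ln h + 2 := by omega
      simp only [dv, h3, h4, if_false]

def xg : ℕ → (ℕ → ℕ) → List Bool
  | 0, g => List.replicate (g 0) false
  | h + 1, g => List.replicate (g (h + 1)) false ++ true :: xg h g

lemma tau_replicate (n : ℕ) (y : List Bool) :
    tau (List.replicate n false ++ y) =
      List.replicate n b ++ (tau y ++ List.replicate n b) := by
  induction n with
  | zero => simp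
  | succ n ih =>
    simp only [List.replicate_succ, List.cons_append, tau, ih, List.append_assoc]
    congr 3
    rw [← List.replicate_succ', List.replicate_succ]

lemma aw_eq_tau {h s : ℕ} {g v : ℕ → ℕ} (hD : Dg h s g v) :
    aw s (seps h) v = tau (xg h g) := by
  induction h generalizing s with
  | zero =>
    obtain ⟨h1, h2⟩ := hD
    have := tau_replicate (g 0) []
    rw [List.append_nil] at this
    simp only [xg, this, seps, aw, h1, h2]
    rfl
  | succ h ih =>
    obtain ⟨h1, h2, h3, h4⟩ := hD
    rw [aw_seps_succ, ih h3, ih h4, h1, h2]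
    simp only [xg, tau_replicate, tau, List.cons_append, List.append_assoc, List.nil_append]

/-! ### words without mismatch -/

def GoodW (w : List Al) : Prop := ∀ α β, w = α ++ d :: β → ∃ z α' β',
  AB z ∧ α = α' ++ c :: z.reverse ∧ β = z ++ c :: β'

lemma not_InD_of_good {w : List Al} (h : GoodW w) : ¬ InD w := by
  rintro ⟨α, u, v, β, s, t, hw, hl, hu, hv, hst⟩
  obtain ⟨z, α', β', hz, h1, h2⟩ := h (α ++ s :: u) (v ++ t :: β) (by rw [hw]; simp)
  have h3 : (u.reverse ++ s :: α.reverse) = z ++ c :: α'.reverse := by
    have := congrArg List.reverse h1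
    simpa using this
  -- compare position `u.length`
  have hlen : u.length ≤ z.length := by
    by_contra hcon
    push Not at hcon
    have e1 : (z ++ c :: β')[z.length]? = some c := by simp
    rw [← h2] at e1
    rw [List.getElem?_append_left (by omega)] at e1
    have : c ∈ v := List.mem_of_getElem? e1
    rcases hv c this with h | h <;> cases h
  have e1 : (u.reverse ++ s :: α.reverse)[u.length]? = some s := by
    rw [List.getElem?_append_right (by simp)]
    simp
  have e2 : (v ++ t :: β)[u.length]? = some t := by
    rw [hl, List.getElem?_append_right (by simp)]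
    simp
  rw [h3] at e1
  rw [h2] at e2
  rcases Nat.lt_or_ge u.length z.length with h4 | h4
  · rw [List.getElem?_append_left h4] at e1 e2
    rw [e1] at e2
    exact hst (Option.some.inj e2)
  · have h5 : u.length = z.length := by omega
    rw [h5, List.getElem?_append_right le_rfl] at e1 e2
    simp at e1 e2
    exact hst (e1.symm.trans e2)

lemma append_cons_eq {A : Type} {u v α β : List A} {x : A} (h : u ++ x :: v = α ++ x :: β) :
    (α = u ∧ β = v) ∨ (∃ γ, α = u ++ x :: γ ∧ v = γ ++ x :: β) ∨
      (∃ γ, u = α ++ x :: γ ∧ β = γ ++ x :: v) := by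
  induction u generalizing α with
  | nil =>
    cases α with
    | nil =>
      simp only [List.nil_append, List.cons.injEq, true_and] at h
      exact Or.inl ⟨rfl, h.symm⟩
    | cons y α =>
      simp only [List.nil_append, List.cons_append, List.cons.injEq] at h
      right; left
      exact ⟨α, by rw [h.1]; rfl, h.2⟩
  | cons z u ih =>
    cases α with
    | nil =>
      simp only [List.nil_append, List.cons_append, List.cons.injEq] at h
      right; right
      exact ⟨u, by rw [h.1]; rfl, h.2.symm⟩
    | cons y α =>
      simp only [List.cons_append, List.cons.injEq] at h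
      rcases ih h.2 with ⟨h1, h2⟩ | ⟨γ, h1, h2⟩ | ⟨γ, h1, h2⟩
      · left; exact ⟨by rw [h.1, h1], h2⟩
      · right; left; exact ⟨γ, by rw [h.1, h1]; rfl, h2⟩
      · right; right; exact ⟨γ, by rw [h.1, h1]; rfl, h2⟩

lemma GoodW.pre {w p : List Al} (h : GoodW w) (hp : d ∉ p) : GoodW (p ++ w) := by
  induction p with
  | nil => exact h
  | cons x p ih =>
    intro α β he
    have hxd : x ≠ d := fun e => hp (by simp [e])
    cases α with
    | nil =>
      simp only [List.cons_append, List.nil_append, List.cons.injEq] at he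
      exact absurd he.1 hxd
    | cons y α =>
      simp only [List.cons_append, List.cons.injEq] at he
      obtain ⟨z, α', β', h1, h2, h3⟩ := ih (fun e => hp (by simp [e])) α β he.2
      exact ⟨z, y :: α', β', h1, by rw [h2]; rfl, h3⟩

lemma GoodW.post {w q : List Al} (h : GoodW w) (hq : d ∉ q) : GoodW (w ++ q) := by
  intro α β he
  rcases List.append_eq_append_iff.1 he with ⟨t, h1, h2⟩ | ⟨t, h1, h2⟩
  · -- α = w ++ t, q = t ++ d :: β
    exact absurd (by rw [h2]; simp) hq
  · -- w = α ++ t, d :: β = t ++ q
    cases t with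
    | nil =>
      simp only [List.nil_append] at h2
      exact absurd (by rw [← h2]; simp) hq
    | cons y t =>
      simp only [List.cons_append, List.cons.injEq] at h2
      obtain ⟨z, α', β', h3, h4, h5⟩ := h α t (by rw [h1, ← h2.1])
      exact ⟨z, α', β' ++ q, h3, h4, by rw [h2.2, h5]; simp⟩

lemma GoodW.mid {u v : List Al} (hu : GoodW u) (hv : GoodW v) {z α' β' : List Al} (hz : AB z)
    (h1 : u = α' ++ c :: z.reverse) (h2 : v = z ++ c :: β') : GoodW (u ++ d :: v) := by
  intro α β he
  rcases append_cons_eq he with ⟨rfl, rfl⟩ | ⟨γ, h3, h4⟩ | ⟨γ, h3, h4⟩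
  · exact ⟨z, α', β', hz, h1, h2⟩
  · obtain ⟨z', α2, β2, h5, h6, h7⟩ := hv γ β h4
    exact ⟨z', u ++ d :: α2, β2, h5, by rw [h3, h6]; simp, h7⟩
  · obtain ⟨z', α2, β2, h5, h6, h7⟩ := hu α γ h3
    exact ⟨z', α2, β2 ++ d :: v, h5, h6, by rw [h4, h7]; simp⟩

def ls : ℕ → ℕ → (ℕ → ℕ) → List Al
  | 0, s, v => List.replicate (v s) b
  | h + 1, s, v => List.replicate (v s) b ++ a :: ls h (s + 1) v

def rs : ℕ → ℕ → (ℕ → ℕ) → List Al
  | 0, e, v => List.replicate (v e) b
  | h + 1, e, v => List.replicate (v e) b ++ a :: rs h (e - 1) v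

lemma AB_replicate (n : ℕ) : AB (List.replicate n b) := by
  intro x hx
  exact Or.inr (List.eq_of_mem_replicate hx)

lemma AB_ls (h s : ℕ) (v : ℕ → ℕ) : AB (ls h s v) := by
  induction h generalizing s with
  | zero => exact AB_replicate _
  | succ h ih => exact AB_append (AB_replicate _) (AB_cons (Or.inl rfl) (ih _))

lemma rs_eq_ls {h e s : ℕ} {v : ℕ → ℕ} (hv : ∀ t, t ≤ h → v (e - t) = v (s + t)) :
    rs h e v = ls h s v := by
  induction h generalizing e s with
  | zero =>
    have := hv 0 le_rfl
    simp only [Nat.sub_zero, Nat.add_zero] at this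
    simp only [rs, ls, this]
  | succ h ih =>
    have h0 := hv 0 (by omega)
    simp only [Nat.sub_zero, Nat.add_zero] at h0
    simp only [rs, ls, h0]
    rw [ih]
    intro t ht
    have := hv (t + 1) (by omega)
    have e1 : e - 1 - t = e - (t + 1) := by omega
    have e2 : s + 1 + t = s + (t + 1) := by omega
    rw [e1, e2]
    exact this

lemma aw_ls (h s : ℕ) (v : ℕ → ℕ) : ∃ r, aw s (seps h) v = ls h s v ++ c :: r := by
  induction h generalizing s with
  | zero => exact ⟨List.replicate (v (s + 1)) b, rfl⟩
  | succ h ih =>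
    obtain ⟨r, hr⟩ := ih (s + 1)
    rw [aw_seps_succ, hr]
    exact ⟨_, by simp only [ls, List.append_assoc, List.cons_append]; rfl⟩

lemma aw_rs (h s : ℕ) (v : ℕ → ℕ) : ∃ r, aw s (seps h) v = r ++ c :: (rs h (s + ln h) v).reverse := by
  induction h generalizing s with
  | zero => exact ⟨List.replicate (v s) b, by simp [aw, seps, rs, ln]⟩
  | succ h ih =>
    obtain ⟨r, hr⟩ := ih (s + ln h + 2)
    rw [aw_seps_succ, hr]
    have e : s + ln (h + 1) - 1 = s + ln h + 2 + ln h := by simp only [ln]; omega
    refine ⟨List.replicate (v s) b ++ a :: (aw (s + 1) (seps h) v ++ d :: r), ?_⟩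
    simp only [rs, e, List.reverse_append, List.reverse_cons, List.reverse_replicate,
      List.append_assoc, List.cons_append, List.nil_append]

def Pc : ℕ → ℕ → (ℕ → ℕ) → Prop
  | 0, _, _ => True
  | h + 1, s, v => (∀ t, t ≤ h → v (s + 1 + ln h - t) = v (s + ln h + 2 + t)) ∧
      Pc h (s + 1) v ∧ Pc h (s + ln h + 2) v

lemma good_aw {h s : ℕ} {v : ℕ → ℕ} (hP : Pc h s v) : GoodW (aw s (seps h) v) := by
  induction h generalizing s with
  | zero =>
    intro α β he
    have : d ∈ aw s (seps 0) v := by rw [he]; simp
    simp only [aw, seps, List.mem_append, List.mem_cons, List.mem_replicate] at this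
    rcases this with h | h | h
    · cases h.2
    · cases h
    · cases h.2
  | succ h ih =>
    obtain ⟨h1, h2, h3⟩ := hP
    have g1 := ih h2
    have g2 := ih h3
    rw [aw_seps_succ]
    obtain ⟨r1, hr1⟩ := aw_rs h (s + 1) v
    obtain ⟨r2, hr2⟩ := aw_ls h (s + ln h + 2) v
    rw [rs_eq_ls (s := s + ln h + 2) h1] at hr1
    have g3 := GoodW.mid g1 g2 (AB_ls h (s + ln h + 2) v) hr1 hr2
    have g4 : GoodW ((aw (s + 1) (seps h) v ++ d :: aw (s + ln h + 2) (seps h) v) ++
        a :: List.replicate (v (s + ln (h + 1))) b) := by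
      apply GoodW.post g3
      intro hd
      simp only [List.mem_cons, List.mem_replicate] at hd
      rcases hd with hd | hd
      · cases hd
      · cases hd.2
    have g5 : GoodW ((List.replicate (v s) b ++ [a]) ++
        ((aw (s + 1) (seps h) v ++ d :: aw (s + ln h + 2) (seps h) v) ++
        a :: List.replicate (v (s + ln (h + 1))) b)) := by
      apply GoodW.pre g4
      intro hd
      simp only [List.mem_append, List.mem_cons, List.mem_replicate, List.not_mem_nil,
        or_false] at hd
      rcases hd with hd | hd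
      · cases hd.2
      · cases hd
    simpa [List.append_assoc] using g5

lemma ls_xg (h s : ℕ) (g v : ℕ → ℕ) (hv : ∀ t, t ≤ h → v (s + t) = g (h - t)) :
    ls h s v = (xg h g).map lt := by
  induction h generalizing s with
  | zero =>
    have := hv 0 le_rfl
    simp only [Nat.add_zero, Nat.sub_zero] at this
    simp [ls, xg, this, lt]
  | succ h ih =>
    have h0 := hv 0 (by omega)
    simp only [Nat.add_zero, Nat.sub_zero] at h0
    simp only [ls, xg, h0, List.map_append, List.map_cons, List.map_replicate, lt]
    rw [ih]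
    intro t ht
    have := hv (t + 1) (by omega)
    have e1 : s + 1 + t = s + (t + 1) := by omega
    have e2 : h + 1 - (t + 1) = h - t := by omega
    rw [e1, this, e2]

lemma AB_split {x y r r' : List Al} (hx : AB x) (hy : AB y) (h : x ++ c :: r = y ++ c :: r') :
    x = y := by
  induction x generalizing y with
  | nil =>
    cases y with
    | nil => rfl
    | cons z y =>
      simp only [List.nil_append, List.cons_append, List.cons.injEq] at h
      have := hy z (by simp)
      rw [← h.1] at this
      rcases this with h | h <;> cases h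
  | cons w x ih =>
    cases y with
    | nil =>
      simp only [List.nil_append, List.cons_append, List.cons.injEq] at h
      have := hx w (by simp)
      rw [h.1] at this
      rcases this with h | h <;> cases h
    | cons z y =>
      simp only [List.cons_append, List.cons.injEq] at h
      rw [h.1, ih (fun q hq => hx q (by simp [hq])) (fun q hq => hy q (by simp [hq])) h.2]

/-- members of the language of perfect shape without mismatch are diagonal -/
theorem diag_of_mem {m : ℕ} {v : ℕ → ℕ} (hv : aw 0 (seps m) v ∈ Lg) (hP : Pc m 0 v) :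
    ∃ g, Dg m 0 g v := by
  rcases hv with h | ⟨x, hx⟩
  · exact absurd h (not_InD_of_good (good_aw hP))
  · set g : ℕ → ℕ := fun j => v (m - j) with hg
    have h1 : ls m 0 v = (xg m g).map lt := by
      apply ls_xg
      intro t ht
      simp only [hg]
      congr 1
      omega
    obtain ⟨r, hr⟩ := aw_ls m 0 v
    obtain ⟨r', hr'⟩ := tau_prefix x
    have h2 : ls m 0 v = x.map lt := by
      apply AB_split (AB_ls _ _ _) (AB_map_lt x) (r := r) (r' := r')
      rw [← hr, ← hr', hx]
    have h3 : x = xg m g := by
      apply List.map_injective_iff.2 lt_injective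
      rw [← h2, h1]
    have h4 : aw 0 (seps m) v = aw 0 (seps m) (dv m 0 g) := by
      rw [hx, h3, aw_eq_tau (Dg_dv m 0 g)]
    have h5 := aw_inj (seps_ne_b m) h4
    refine ⟨g, Dg_congr ?_ (Dg_dv m 0 g)⟩
    intro i hi hi'
    exact (h5 i hi (by rw [seps_length]; exact hi')).symm

theorem mem_of_diag {m : ℕ} {v g : ℕ → ℕ} (hD : Dg m 0 g v) : aw 0 (seps m) v ∈ Lg :=
  Or.inr ⟨xg m g, aw_eq_tau hD⟩

/-! ### reading -/

lemma Rd_replicate {sp : List Al} {s s' : ℕ} {w : List Al} {v : ℕ → ℕ} (h : Rd sp s w s' v)
    (n : ℕ) : Rd sp s (List.replicate n b ++ w) s' (Pi.single s n + v) := by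
  induction n with
  | zero => simpa using h
  | succ n ih =>
    rw [List.replicate_succ, List.cons_append]
    unfold Rd
    rw [if_pos rfl]
    refine ⟨_, ?_, ih⟩
    rw [← add_assoc, ← Pi.single_add, add_comm 1 n]

lemma Rd_supp {sp : List Al} {s s' : ℕ} {w : List Al} {v : ℕ → ℕ} (h : Rd sp s w s' v) :
    ∀ i, i < s → v i = 0 := by
  induction w generalizing s v with
  | nil =>
    obtain ⟨_, rfl⟩ := h
    intro i _; rfl
  | cons x w ih =>
    intro i hi
    unfold Rd at h
    split_ifs at h with hx
    · obtain ⟨v', rfl, h3⟩ := h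
      have := ih h3 i hi
      simp [this, Pi.single_apply, (show i ≠ s by omega)]
    · exact ih h.2 i (by omega)

lemma aw_congr {l : List Al} {s : ℕ} {v v' : ℕ → ℕ} (h : ∀ i, s ≤ i → v i = v' i) :
    aw s l v = aw s l v' := by
  induction l generalizing s with
  | nil => simp only [aw, h s le_rfl]
  | cons x l ih =>
    simp only [aw, h s le_rfl]
    rw [ih (fun i hi => h i (by omega))]

/-- the word read is determined -/
lemma eq_aw_of_Rd {sp : List Al} {s : ℕ} {w : List Al} {v : ℕ → ℕ}
    (h : Rd sp s w sp.length v) : w = aw s (sp.drop s) v := by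
  induction w generalizing s v with
  | nil =>
    obtain ⟨rfl, rfl⟩ := h
    simp [aw]
  | cons x w ih =>
    unfold Rd at h
    split_ifs at h with hx
    · obtain ⟨v', rfl, h3⟩ := h
      have h4 := ih h3
      subst hx
      have e : ∀ l : List Al, aw s l (Pi.single s 1 + v') = b :: aw s l v' := by
        intro l
        cases l with
        | nil => simp [aw, Nat.add_comm 1, List.replicate_succ]
        | cons y l =>
          simp only [aw, Pi.add_apply, Pi.single_eq_same, Nat.add_comm 1, List.replicate_succ,
            List.cons_append]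
          rw [aw_congr (v' := v')]
          intro i hi
          simp [Pi.single_apply, (show i ≠ s by omega)]
      rw [e, ← h4]
    · have h4 := ih h.2
      have h5 : v s = 0 := Rd_supp h.2 s (Nat.lt_succ_self s)
      obtain ⟨hlt, hget⟩ := List.getElem?_eq_some_iff.1 h.1
      rw [List.drop_eq_getElem_cons hlt, hget]
      simp only [aw, h5, List.replicate_zero, List.nil_append]
      rw [← h4]

lemma Rd_aw {sp : List Al} (hsp : ∀ x ∈ sp, x ≠ b) (l : List Al) (s : ℕ) (v : ℕ → ℕ)
    (hl : sp.drop s = l) (hs : s ≤ sp.length) :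
    Rd sp s (aw s l v) sp.length (fun i => if s ≤ i ∧ i ≤ sp.length then v i else 0) := by
  induction l generalizing s with
  | nil =>
    have hlen : sp.length ≤ s := List.drop_eq_nil_iff.1 hl
    have hs' : s = sp.length := le_antisymm hs hlen
    have h0 : Rd sp s [] sp.length 0 := ⟨hs', rfl⟩
    have := Rd_replicate h0 (v s)
    simp only [List.append_nil, add_zero] at this
    simp only [aw]
    convert this using 1
    ext i
    simp only [Pi.single_apply]
    by_cases hi : i = s
    · subst hi; simp [hs]
    · simp only [hi, if_false]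
      rw [if_neg (by omega)]
  | cons x l ih =>
    have hlt : s < sp.length := by
      by_contra hcon
      rw [List.drop_eq_nil_iff.2 (by omega)] at hl
      cases hl
    rw [List.drop_eq_getElem_cons hlt, List.cons.injEq] at hl
    have h0 := ih (s + 1) hl.2 (by omega)
    have h1 : Rd sp s (x :: aw (s + 1) l v) sp.length
        (fun i => if s + 1 ≤ i ∧ i ≤ sp.length then v i else 0) := by
      unfold Rd
      rw [if_neg (hsp x (by rw [← hl.1]; exact List.getElem_mem hlt))]
      exact ⟨by rw [List.getElem?_eq_getElem hlt, hl.1], h0⟩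
    have h2 := Rd_replicate h1 (v s)
    simp only [aw]
    convert h2 using 1
    ext i
    simp only [Pi.add_apply, Pi.single_apply]
    by_cases hi : i = s
    · subst hi
      simp [hs]
    · simp only [hi, if_false, Nat.zero_add]
      by_cases h3 : s ≤ i ∧ i ≤ sp.length
      · rw [if_pos h3, if_pos (by omega)]
      · rw [if_neg h3, if_neg (by omega)]

end Pool.Agent.Lib.MP835627
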