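import Pool.Agent.Lib.MP_835627_lc.Pump

/-!
Horton-Strahler type numbers of derivation forests: an upper bound from the index of a
derivation and a lower bound from a perfect binary tree of nodes.
-/

set_option autoImplicit false

namespace Pool.Agent.Lib.MP835627

open Al Fr

section general

variable {T Q : Type}

/-- first component: maximum over the trees of the forest; second component: the number of a
node whose children are the forest. -/
def hh : Fr T Q → ℕ × ℕ
  | nil => (0, 1)
  | term _ r => hh r
  | node _ ch r => (max (hh ch).2 (hh r).1,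
      max (hh r).2 (max (hh ch).2 (min (hh ch).2 (hh r).1 + 1)))

def h1 (f : Fr T Q) : ℕ := (hh f).1
def h2 (f : Fr T Q) : ℕ := (hh f).2

lemma h1_nil : h1 (nil : Fr T Q) = 0 := rfl
lemma h2_nil : h2 (nil : Fr T Q) = 1 := rfl
lemma h1_term (t : T) (r : Fr T Q) : h1 (term t r) = h1 r := rfl
lemma h2_term (t : T) (r : Fr T Q) : h2 (term t r) = h2 r := rfl
lemma h1_node (q : Q) (ch r : Fr T Q) : h1 (node q ch r) = max (h2 ch) (h1 r) := rfl
lemma h2_node (q : Q) (ch r : Fr T Q) : h2 (node q ch r) =
    max (h2 r) (max (h2 ch) (min (h2 ch) (h1 r) + 1)) := rfl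

lemma one_le_h2 (f : Fr T Q) : 1 ≤ h2 f := by
  induction f with
  | nil => exact le_rfl
  | term t r ih => exact ih
  | node q ch r ih1 ih2 => rw [h2_node]; omega

lemma h1_le_h2 (f : Fr T Q) : h1 f ≤ h2 f := by
  induction f with
  | nil => rw [h1_nil]; exact Nat.zero_le _
  | term t r ih => exact ih
  | node q ch r ih1 ih2 => rw [h2_node, h1_node]; omega

lemma h2_le (f : Fr T Q) : h2 f ≤ h1 f + 1 := by
  induction f with
  | nil => rw [h2_nil, h1_nil]
  | term t r ih => exact ih
  | node q ch r ih1 ih2 => rw [h2_node, h1_node]; omega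

def cnt (x : ℕ) : Fr T Q → ℕ
  | nil => 0
  | term _ r => cnt x r
  | node _ ch r => (if x ≤ h2 ch then 1 else 0) + cnt x r

lemma cnt_nil (x : ℕ) : cnt x (nil : Fr T Q) = 0 := rfl
lemma cnt_term (x : ℕ) (t : T) (r : Fr T Q) : cnt x (term t r) = cnt x r := rfl
lemma cnt_node (x : ℕ) (q : Q) (ch r : Fr T Q) :
    cnt x (node q ch r) = (if x ≤ h2 ch then 1 else 0) + cnt x r := rfl

lemma one_le_cnt {x : ℕ} {f : Fr T Q} (hx : 1 ≤ x) (h : x ≤ h1 f) : 1 ≤ cnt x f := by
  induction f with
  | nil => rw [h1_nil] at h; omega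
  | term t r ih => exact ih h
  | node q ch r ih1 ih2 =>
    rw [h1_node] at h
    rw [cnt_node]
    by_cases hc : x ≤ h2 ch
    · rw [if_pos hc]; omega
    · have := ih2 (by omega)
      omega

lemma cnt_eq_zero {x : ℕ} {f : Fr T Q} (h : h1 f < x) : cnt x f = 0 := by
  induction f with
  | nil => rfl
  | term t r ih => exact ih h
  | node q ch r ih1 ih2 =>
    rw [h1_node] at h
    rw [cnt_node, if_neg (by omega), ih2 (by omega)]

lemma cnt_anti {x y : ℕ} (hxy : x ≤ y) (f : Fr T Q) : cnt y f ≤ cnt x f := by
  induction f with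
  | nil => exact le_rfl
  | term t r ih => exact ih
  | node q ch r ih1 ih2 =>
    rw [cnt_node, cnt_node]
    by_cases hc : y ≤ h2 ch
    · rw [if_pos hc, if_pos (hxy.trans hc)]; omega
    · rw [if_neg hc]; omega

lemma two_le_cnt {f : Fr T Q} (hx : 1 ≤ h1 f) (h : h2 f = h1 f + 1) : 2 ≤ cnt (h1 f) f := by
  induction f with
  | nil => rw [h1_nil] at hx; omega
  | term t r ih => exact ih hx h
  | node q ch r ih1 ih2 =>
    rw [h2_node, h1_node] at h
    rw [h1_node] at hx
    rw [cnt_node, h1_node]
    have h3 := h2_le r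
    have h4 := one_le_h2 ch
    have h5 := h1_le_h2 r
    by_cases hc : h2 ch = h1 r
    · have h6 : 1 ≤ cnt (h1 r) r := one_le_cnt (by omega) le_rfl
      have h7 : max (h2 ch) (h1 r) = h1 r := by omega
      rw [h7, if_pos (by omega)]
      omega
    · have h8 : h2 ch < h1 r := by omega
      have h7 : max (h2 ch) (h1 r) = h1 r := by omega
      rw [h7]
      have := ih2 (by omega) (by omega)
      omega

/-- concatenation of forests -/
def ap : Fr T Q → Fr T Q → Fr T Q
  | nil, g => g
  | term t r, g => term t (ap r g)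
  | node q ch r, g => node q ch (ap r g)

lemma cnt_ap (x : ℕ) (f g : Fr T Q) : cnt x (ap f g) = cnt x f + cnt x g := by
  induction f with
  | nil => simp [ap, cnt_nil]
  | term t r ih => exact ih
  | node q ch r ih1 ih2 =>
    change (if x ≤ h2 ch then 1 else 0) + cnt x (ap r g) = _
    rw [cnt_node, ih2]; omega

end general

variable {G : ContextFreeGrammar Al} {sp : List Al}

/-- number of nonterminals -/
def nn : List (Symbol Al G.NT) → ℕ
  | [] => 0
  | Symbol.terminal _ :: l => nn l
  | Symbol.nonterminal _ :: l => nn l + 1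

lemma ncard_eq_nn (v : List (Symbol Al G.NT)) :
    {i : Fin v.length | ∃ n : G.NT, v.get i = Symbol.nonterminal n}.ncard = nn v := by
  classical
  have key : ∀ v : List (Symbol Al G.NT),
      (∑ i : Fin v.length, if ∃ n : G.NT, v.get i = Symbol.nonterminal n then 1 else 0) = nn v := by
    intro v
    induction v with
    | nil => simp [nn]
    | cons x v ih =>
      have e : (∑ i : Fin (x :: v).length,
          if ∃ n : G.NT, (x :: v).get i = Symbol.nonterminal n then 1 else 0) =
          (if ∃ n : G.NT, x = Symbol.nonterminal n then 1 else 0) +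
          ∑ i : Fin v.length, if ∃ n : G.NT, v.get i = Symbol.nonterminal n then 1 else 0 := by
        exact Fin.sum_univ_succ (n := v.length)
          (fun i : Fin (v.length + 1) =>
            if ∃ n : G.NT, (x :: v).get i = Symbol.nonterminal n then 1 else 0)
      rw [e, ih]
      cases x with
      | terminal t => simp [nn]
      | nonterminal A => simp [nn]; omega
  rw [← key v, Set.ncard_eq_toFinset_card', ← Finset.card_filter]
  congr 1
  ext i
  simp

lemma roots_ap (f g : FF G) : roots (ap f g) = roots f ++ roots g := by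
  induction f with
  | nil => rfl
  | term t r ih =>
    change Symbol.terminal t :: roots (ap r g) = _
    rw [ih]; rfl
  | node q ch r ih1 ih2 =>
    change Symbol.nonterminal q.1 :: roots (ap r g) = _
    rw [ih2]; rfl

lemma split_roots {f : FF G} {l1 l2 : List (Symbol Al G.NT)} (h : roots f = l1 ++ l2) :
    ∃ f1 f2, f = ap f1 f2 ∧ roots f1 = l1 ∧ roots f2 = l2 := by
  induction l1 generalizing f with
  | nil => exact ⟨nil, f, rfl, rfl, h⟩
  | cons x l1 ih =>
    cases f with
    | nil => simp [roots] at h
    | term t r =>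
      rw [roots_term, List.cons_append, List.cons.injEq] at h
      obtain ⟨f1, f2, rfl, h3, h4⟩ := ih h.2
      exact ⟨term t f1, f2, rfl, by rw [roots_term, h3, h.1], h4⟩
    | node q ch r =>
      rw [roots_node, List.cons_append, List.cons.injEq] at h
      obtain ⟨f1, f2, rfl, h3, h4⟩ := ih h.2
      exact ⟨node q ch f1, f2, rfl, by rw [roots_node, h3, h.1], h4⟩

lemma VF_ap {f g : FF G} {s s' : ℕ} (h : VF sp s (ap f g) s') :
    ∃ s1, VF sp s f s1 ∧ VF sp s1 g s' ∧ vec s (ap f g) = vec s f + vec s1 g := by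
  induction f generalizing s with
  | nil => exact ⟨s, rfl, h, by simp [ap, vec]⟩
  | term t r ih =>
    change VF sp s (term t (ap r g)) s' at h
    rw [VF_term] at h
    change ∃ s1, VF sp s (term t r) s1 ∧ VF sp s1 g s' ∧
      vec s (term t (ap r g)) = vec s (term t r) + vec s1 g
    simp only [VF_term, vec_term]
    split_ifs at h ⊢ with ht
    · obtain ⟨s1, a1, a2, a3⟩ := ih h
      exact ⟨s1, a1, a2, by rw [a3]; abel⟩
    · obtain ⟨s1, a1, a2, a3⟩ := ih h.2
      exact ⟨s1, ⟨h.1, a1⟩, a2, a3⟩
  | node q ch r ih1 ih2 =>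
    obtain ⟨b1, b2, b3, b4⟩ := h
    obtain ⟨s1, a1, a2, a3⟩ := ih2 b4
    refine ⟨s1, ⟨b1, b2, b3, a1⟩, a2, ?_⟩
    change vec s (node q ch (ap r g)) = vec s (node q ch r) + vec s1 g
    rw [vec_node, vec_node, a3]; abel

lemma ap_VF {f g : FF G} {s s1 s' : ℕ} (h1 : VF sp s f s1) (h2 : VF sp s1 g s') :
    VF sp s (ap f g) s' ∧ vec s (ap f g) = vec s f + vec s1 g := by
  induction f generalizing s with
  | nil =>
    have : s = s1 := h1
    subst this
    exact ⟨h2, by simp [ap, vec]⟩
  | term t r ih =>
    change VF sp s (term t (ap r g)) s' ∧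
      vec s (term t (ap r g)) = vec s (term t r) + vec s1 g
    rw [VF_term] at h1
    simp only [VF_term, vec_term]
    split_ifs at h1 ⊢ with ht
    · obtain ⟨a1, a2⟩ := ih h1
      exact ⟨a1, by rw [a2]; abel⟩
    · obtain ⟨a1, a2⟩ := ih h1.2
      exact ⟨⟨h1.1, a1⟩, a2⟩
  | node q ch r ih1 ih2 =>
    obtain ⟨b1, b2, b3, b4⟩ := h1
    obtain ⟨a1, a2⟩ := ih2 b4
    refine ⟨⟨b1, b2, b3, a1⟩, ?_⟩
    change vec s (node q ch (ap r g)) = vec s (node q ch r) + vec s1 g
    rw [vec_node, vec_node, a2]; abel

/-- forest of leaves -/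
def tf : List Al → FF G
  | [] => nil
  | x :: w => term x (tf w)

lemma roots_tf (w : List Al) : roots (tf w : FF G) = w.map Symbol.terminal := by
  induction w with
  | nil => rfl
  | cons x w ih => change Symbol.terminal x :: roots (tf w) = _; rw [ih]; rfl

lemma cnt_tf (x : ℕ) (w : List Al) : cnt x (tf w : FF G) = 0 := by
  induction w with
  | nil => rfl
  | cons y w ih => exact ih

lemma VF_tf {w : List Al} {s s' : ℕ} {v : ℕ → ℕ} (h : Rd sp s w s' v) :
    VF sp s (tf w : FF G) s' ∧ vec s (tf w : FF G) = v := by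
  induction w generalizing s v with
  | nil =>
    obtain ⟨rfl, rfl⟩ := h
    exact ⟨rfl, rfl⟩
  | cons x w ih =>
    change VF sp s (term x (tf w)) s' ∧ vec s (term x (tf w : FF G)) = v
    rw [VF_term, vec_term]
    unfold Rd at h
    split_ifs at h ⊢ with hx
    · obtain ⟨v', rfl, h3⟩ := h
      obtain ⟨a1, a2⟩ := ih h3
      exact ⟨a1, by rw [a2]⟩
    · obtain ⟨a1, a2⟩ := ih h.2
      exact ⟨⟨h.1, a1⟩, a2⟩

lemma nn_roots (f : FF G) : nn (roots f) = cnt 1 f := by
  induction f with
  | nil => rfl
  | term t r ih => exact ih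
  | node q ch r ih1 ih2 =>
    rw [roots_node, cnt_node, if_pos (one_le_h2 ch), ← ih2]
    simp only [nn]; omega

/-- the upper bound -/
theorem forest_of_index {k K : ℕ} (hkK : k ≤ K) {u : List (Symbol Al G.NT)} {w : List Al}
    (h : Relation.ReflTransGen
      (fun u v : List (Symbol Al G.NT) => G.Produces u v ∧
        {i : Fin v.length | ∃ n : G.NT, v.get i = Symbol.nonterminal n}.ncard ≤ k)
      u (w.map Symbol.terminal)) (hu : nn u ≤ K) {s s' : ℕ} {v : ℕ → ℕ}
    (hw : Rd sp s w s' v) :
    ∃ f : FF G, roots f = u ∧ VF sp s f s' ∧ vec s f = v ∧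
      ∀ x, 1 ≤ x → cnt x f ≠ 0 → cnt x f + x ≤ K + 1 := by
  induction h using Relation.ReflTransGen.head_induction_on with
  | refl =>
    obtain ⟨a1, a2⟩ := VF_tf (G := G) hw
    exact ⟨tf w, roots_tf w, a1, a2, fun x _ hx => absurd (cnt_tf x w) hx⟩
  | @head u u' hstep _ ih =>
    obtain ⟨hp, hn⟩ := hstep
    rw [ncard_eq_nn] at hn
    obtain ⟨f, hf1, hf2, hf3, hf4⟩ := ih (hn.trans hkK)
    obtain ⟨r, hr, hrw⟩ := hp
    obtain ⟨p, q, rfl, rfl⟩ := hrw.exists_parts
    rw [List.append_assoc] at hf1
    obtain ⟨fp, f1, rfl, hp1, hp2⟩ := split_roots hf1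
    obtain ⟨fo, fq, rfl, ho1, ho2⟩ := split_roots hp2
    obtain ⟨s1, c1, c2, c3⟩ := VF_ap hf2
    obtain ⟨s2, d1, d2, d3⟩ := VF_ap c2
    have hnode : VF sp s1 (node (r.input, s1, s2) fo fq : FF G) s' := by
      refine ⟨rfl, ?_, d1, d2⟩
      rw [ho1]
      exact hr
    obtain ⟨e1, e2⟩ := ap_VF c1 hnode
    have hroots : roots (ap fp (node (r.input, s1, s2) fo fq) : FF G) =
        p ++ [Symbol.nonterminal r.input] ++ q := by
      rw [roots_ap, roots_node, hp1, ho2]; simp
    refine ⟨ap fp (node (r.input, s1, s2) fo fq), hroots, e1, ?_, ?_⟩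
    · rw [e2, vec_node, ← hf3, c3, d3]
    · intro x hx hne
      rw [cnt_ap, cnt_node] at hne ⊢
      have hfx := hf4 x hx
      rw [cnt_ap, cnt_ap] at hfx
      by_cases hx2 : x ≤ h2 fo
      · rw [if_pos hx2] at hne ⊢
        by_cases hx1 : x ≤ h1 fo
        · have h3 := one_le_cnt hx hx1
          have h4 := hfx (by omega)
          omega
        · have h5 := h2_le fo
          have h6 : x = h1 fo + 1 := by omega
          by_cases hM : h1 fo = 0
          · have h7 : nn (roots (ap fp (node (r.input, s1, s2) fo fq) : FF G)) ≤ K := by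
              rw [hroots]; exact hu
            rw [nn_roots, cnt_ap, cnt_node, if_pos (one_le_h2 fo)] at h7
            have hx1' : x = 1 := by omega
            subst hx1'
            omega
          · have h8 := two_le_cnt (f := fo) (by omega) (by omega)
            have h9 := hf4 (h1 fo) (by omega)
            rw [cnt_ap, cnt_ap] at h9
            have h10 := h9 (by omega)
            have h11 := cnt_anti (show h1 fo ≤ x by omega) fp
            have h12 := cnt_anti (show h1 fo ≤ x by omega) fq
            omega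
      · rw [if_neg hx2] at hne ⊢
        have h4 := hfx (by omega)
        omega

lemma h1_le_of_cnt {K : ℕ} {f : FF G}
    (h : ∀ x, 1 ≤ x → cnt x f ≠ 0 → cnt x f + x ≤ K + 1) : h1 f ≤ K := by
  by_contra hcon
  have h3 : 1 ≤ cnt (K + 1) f := one_le_cnt (by omega) (by omega)
  have := h (K + 1) (by omega) (by omega)
  omega

/-! ### lower bound -/

def ln : ℕ → ℕ
  | 0 => 1
  | h + 1 => 2 * ln h + 3

lemma ln_pos (h : ℕ) : 1 ≤ ln h := by
  induction h with
  | zero => exact le_rfl
  | succ h ih => rw [ln]; omega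

/-- a node with start slot `x` and end slot `y` occurs in the forest -/
def In (x y : ℕ) (f : FF G) : Prop := ∃ A c, Sub (A, x, y) c f

/-- intervals of the nodes of the perfect binary tree -/
def ND : ℕ → ℕ → List (ℕ × ℕ)
  | 0, s => [(s, s + 1)]
  | h + 1, s => (s, s + ln (h + 1)) :: (ND h (s + 1) ++ ND h (s + ln h + 2))

lemma ND_root (h s : ℕ) : (s, s + ln h) ∈ ND h s := by
  cases h with
  | zero => simp [ND, ln]
  | succ h => simp [ND]

lemma ND_range {h s : ℕ} {p : ℕ × ℕ} (hp : p ∈ ND h s) :
    s ≤ p.1 ∧ p.1 < p.2 ∧ p.2 ≤ s + ln h := by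
  induction h generalizing s with
  | zero =>
    simp only [ND, List.mem_singleton] at hp
    subst hp
    simp [ln]
  | succ h ih =>
    simp only [ND, List.mem_cons, List.mem_append] at hp
    rcases hp with rfl | hp | hp
    · simp only [ln]; omega
    · have := ih hp; simp only [ln]; omega
    · have := ih hp; simp only [ln]; omega

lemma In_term {x y : ℕ} {t : Al} {r : FF G} : In x y (term t r) ↔ In x y r := Iff.rfl

lemma In_node {sp : List Al} {s s' : ℕ} {q : Lb G} {ch r : FF G}
    (h : VF sp s (node q ch r) s') {x y : ℕ} (hi : In x y (node q ch r)) :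
    (x = s ∧ y = q.2.2) ∨ (In x y ch ∧ s ≤ x ∧ y ≤ q.2.2) ∨ (In x y r ∧ q.2.2 ≤ x ∧ y ≤ s') := by
  obtain ⟨A, c, hc⟩ := hi
  obtain ⟨hq, _, h3, h4⟩ := h
  rcases hc with ⟨hc, _⟩ | hc | hc
  · left
    rw [← hq, ← hc]
    exact ⟨rfl, rfl⟩
  · right; left
    have := h3.ctx hc
    exact ⟨⟨A, c, hc⟩, this.2.1, this.2.2.1⟩
  · right; right
    have := h4.ctx hc
    exact ⟨⟨A, c, hc⟩, this.2.1, this.2.2.1⟩

lemma claim' {h : ℕ}
    (IH : ∀ (f : FF G) (s0 s0' s : ℕ), VF sp s0 f s0' → (∀ p ∈ ND h s, In p.1 p.2 f) →
      h + 1 ≤ h1 f)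
    (g : FF G) (s0 s0' s : ℕ) (hg : VF sp s0 g s0') (hN1 : ∀ p ∈ ND h s, In p.1 p.2 g)
    (hN2 : ∀ p ∈ ND h (s + ln h + 1), In p.1 p.2 g) : h + 2 ≤ h2 g := by
  induction g generalizing s0 s0' with
  | nil =>
    obtain ⟨A, c, hc⟩ := hN1 _ (ND_root h s)
    exact hc.elim
  | term t r ih =>
    rw [VF_term] at hg
    rw [h2_term]
    split_ifs at hg with ht
    · exact ih _ _ hg hN1 hN2
    · exact ih _ _ hg.2 hN1 hN2
  | node q ch r ih1 ih2 =>
    have hlp := ln_pos h
    have hVF := hg
    obtain ⟨hq, hrule, hch, hr⟩ := hg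
    rw [h2_node]
    have R1 := In_node hVF (hN1 _ (ND_root h s))
    have R2 := In_node hVF (hN2 _ (ND_root h (s + ln h + 1)))
    simp only at R1 R2
    have hle := hch.le
    by_cases hcase : q.2.2 ≤ s
    · -- everything lies in the rest
      have key : ∀ p : ℕ × ℕ, In p.1 p.2 (node q ch r) → s ≤ p.1 → p.1 < p.2 → In p.1 p.2 r := by
        intro p hp h5 h6
        rcases In_node hVF hp with h7 | ⟨_, h7, h8⟩ | ⟨h7, _⟩
        · omega
        · omega
        · exact h7
      have := ih2 _ _ hr (fun p hp => key p (hN1 p hp) (ND_range hp).1 (ND_range hp).2.1)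
        (fun p hp => key p (hN2 p hp) (by have := (ND_range hp).1; omega) (ND_range hp).2.1)
      omega
    · have hle1 : s + ln h ≤ q.2.2 := by omega
      have hs0 : s0 ≤ s := by omega
      by_cases hcase2 : q.2.2 ≤ s + ln h + 1
      · -- second tree in the rest
        have key2 : ∀ p ∈ ND h (s + ln h + 1), In p.1 p.2 r := by
          intro p hp
          have h5 := ND_range hp
          rcases In_node hVF (hN2 p hp) with h7 | ⟨_, h7, h8⟩ | ⟨h7, _⟩
          · omega
          · omega
          · exact h7
        have e2 := IH r _ _ _ hr key2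
        have hsingle : VF sp s0 (node q ch nil : FF G) q.2.2 := ⟨hq, hrule, hch, rfl⟩
        have key1 : ∀ p ∈ ND h s, In p.1 p.2 (node q ch nil : FF G) := by
          intro p hp
          have h5 := ND_range hp
          obtain ⟨A, c, hc⟩ := hN1 p hp
          rcases hc with hc | hc | hc
          · exact ⟨A, c, Or.inl hc⟩
          · exact ⟨A, c, Or.inr (Or.inl hc)⟩
          · have := hr.ctx hc
            omega
        have e1 := IH _ _ _ _ hsingle key1
        rw [h1_node, h1_nil] at e1
        omega
      · -- both in the children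
        have hle2 : s + ln h + 1 + ln h ≤ q.2.2 := by omega
        have key1 : ∀ p ∈ ND h s, In p.1 p.2 ch := by
          intro p hp
          have h5 := ND_range hp
          rcases In_node hVF (hN1 p hp) with h7 | ⟨h7, _⟩ | ⟨_, h7, h8⟩
          · omega
          · exact h7
          · omega
        have key2 : ∀ p ∈ ND h (s + ln h + 1), In p.1 p.2 ch := by
          intro p hp
          have h5 := ND_range hp
          rcases In_node hVF (hN2 p hp) with h7 | ⟨h7, _⟩ | ⟨_, h7, h8⟩
          · omega
          · exact h7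
          · omega
        have := ih1 _ _ hch key1 key2
        omega

theorem claim (h : ℕ) : ∀ (f : FF G) (s0 s0' s : ℕ), VF sp s0 f s0' →
    (∀ p ∈ ND h s, In p.1 p.2 f) → h + 1 ≤ h1 f := by
  induction h with
  | zero =>
    intro f s0 s0' s hf hN
    induction f generalizing s0 s0' with
    | nil =>
      obtain ⟨A, c, hc⟩ := hN _ (ND_root 0 s)
      exact hc.elim
    | term t r ih =>
      rw [VF_term] at hf
      rw [h1_term]
      split_ifs at hf with ht
      · exact ih _ _ hf hN
      · exact ih _ _ hf.2 hN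
    | node q ch r ih1 ih2 =>
      rw [h1_node]
      have := one_le_h2 ch
      omega
  | succ h IH =>
    intro f s0 s0' s hf hN
    induction f generalizing s0 s0' with
    | nil =>
      obtain ⟨A, c, hc⟩ := hN _ (ND_root (h + 1) s)
      exact hc.elim
    | term t r ih =>
      rw [VF_term] at hf
      rw [h1_term]
      split_ifs at hf with ht
      · exact ih _ _ hf hN
      · exact ih _ _ hf.2 hN
    | node q ch r ih1 ih2 =>
      have hlp := ln_pos (h + 1)
      have hVF := hf
      obtain ⟨hq, hrule, hch, hr⟩ := hf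
      have hle := hch.le
      rw [h1_node]
      have R := In_node hVF (hN _ (ND_root (h + 1) s))
      simp only at R
      by_cases hcase : q.2.2 ≤ s
      · have key : ∀ p ∈ ND (h + 1) s, In p.1 p.2 r := by
          intro p hp
          have h5 := ND_range hp
          rcases In_node hVF (hN p hp) with h7 | ⟨_, h7, h8⟩ | ⟨h7, _⟩
          · omega
          · omega
          · exact h7
        have := ih2 _ _ hr key
        omega
      · by_cases hself : s = s0 ∧ s + ln (h + 1) = q.2.2
        · have key : ∀ p ∈ ND h (s + 1) ++ ND h (s + ln h + 2), In p.1 p.2 ch := by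
            intro p hp
            have h5 : s < p.1 ∧ p.1 < p.2 ∧ p.2 < s + ln (h + 1) := by
              rcases List.mem_append.1 hp with hp | hp
              · have := ND_range hp; simp only [ln]; omega
              · have := ND_range hp; simp only [ln]; omega
            rcases In_node hVF (hN p (List.mem_cons_of_mem _ hp)) with h7 | ⟨h7, _⟩ | ⟨_, h7, h8⟩
            · omega
            · exact h7
            · omega
          have := claim' IH ch s0 q.2.2 (s + 1) hch
            (fun p hp => key p (List.mem_append_left _ hp))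
            (fun p hp => key p (List.mem_append_right _ (by
              have e : s + 1 + ln h + 1 = s + ln h + 2 := by omega
              rw [e] at hp; exact hp)))
          omega
        · have hch2 : In s (s + ln (h + 1)) ch ∧ s0 ≤ s ∧ s + ln (h + 1) ≤ q.2.2 := by
            rcases R with R | R | R
            · exact absurd R hself
            · exact R
            · omega
          have key : ∀ p ∈ ND (h + 1) s, In p.1 p.2 ch := by
            intro p hp
            have h5 := ND_range hp
            rcases In_node hVF (hN p hp) with h7 | ⟨h7, _⟩ | ⟨_, h7, h8⟩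
            · have e1 : p.1 = s := by omega
              have e2 : p.2 = s + ln (h + 1) := by omega
              rw [e1, e2]
              exact hch2.1
            · exact h7
            · omega
          have h6 := ih1 _ _ hch key
          have h7 := h1_le_h2 ch
          omega

end Pool.Agent.Lib.MP835627
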